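import Pool.Agent.Helper59.LUC.Goals

set_option autoImplicit false

namespace Pool.Agent.Helper59.LUC
namespace PkLT1

open Finset

/-- a sum of distinct naturals -/
lemma sum_inj {ι : Type} [Fintype ι] (r : ι → ℕ) (hr : Function.Injective r) :
    Fintype.card ι * (Fintype.card ι - 1) / 2 ≤ ∑ i, r i := by
  classical
  have h1 : (univ.image r).card = Fintype.card ι := by
    rw [card_image_of_injective _ hr, card_univ]
  have h2 : ∑ i, r i = ∑ x ∈ univ.image r, x := by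
    rw [sum_image (fun a _ b _ h => hr h)]
  rw [h2, ← sum_range_id, ← h1]
  have key : ∀ s : Finset ℕ, ∑ i ∈ range s.card, i ≤ ∑ x ∈ s, x := by
    intro s
    induction s using Finset.induction_on_max with
    | empty => simp
    | insert a s ha ih =>
      have hna : a ∉ s := fun h => lt_irrefl a (ha a h)
      rw [card_insert_of_notMem hna, sum_range_succ, sum_insert hna]
      have h4 : s.card ≤ a := by
        have : s ⊆ range a := fun x hx => mem_range.mpr (ha x hx)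
        simpa using card_le_card this
      omega
  exact key _

/-- Taylor coefficients of `x^a e^{i b x}` -/
noncomputable def cf (a : ℕ) (b : ℝ) (m : ℕ) : ℂ :=
  if a ≤ m then ((b : ℂ) * Complex.I) ^ (m - a) / ((m - a).factorial : ℂ) else 0

lemma hasSum_cf (a : ℕ) (b x : ℝ) :
    HasSum (fun m => cf a b m * (x : ℂ) ^ m) ((x : ℂ) ^ a * Complex.exp (((b * x : ℝ) : ℂ) * Complex.I)) := by
  have h1 : HasSum (fun k : ℕ => (((b * x : ℝ) : ℂ) * Complex.I) ^ k / (k.factorial : ℂ))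
      (Complex.exp (((b * x : ℝ) : ℂ) * Complex.I)) := by
    rw [Complex.exp_eq_exp_ℂ]
    exact NormedSpace.expSeries_div_hasSum_exp _
  have h2 := h1.mul_left ((x : ℂ) ^ a)
  have h3 : (fun k : ℕ => (x : ℂ) ^ a * ((((b * x : ℝ) : ℂ) * Complex.I) ^ k / (k.factorial : ℂ))) =
      (fun m => cf a b m * (x : ℂ) ^ m) ∘ (fun k => k + a) := by
    funext k
    simp only [Function.comp, cf]
    rw [if_pos (Nat.le_add_left a k), Nat.add_sub_cancel]
    push_cast
    ring
  rw [h3] at h2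
  refine (Function.Injective.hasSum_iff (add_left_injective a) ?_).mp h2
  intro m hm
  have : ¬ a ≤ m := by
    intro h
    exact hm ⟨m - a, Nat.sub_add_cancel h⟩
  simp [cf, this]

lemma hasSum_norm (a : ℕ) (b R : ℝ) (hb : 0 ≤ b) :
    HasSum (fun m => ‖cf a b m‖ * R ^ m) (R ^ a * Real.exp (b * R)) := by
  have h1 : HasSum (fun k : ℕ => (b * R) ^ k / (k.factorial : ℝ)) (Real.exp (b * R)) := by
    rw [Real.exp_eq_exp_ℝ]
    exact NormedSpace.expSeries_div_hasSum_exp _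
  have h2 := h1.mul_left (R ^ a)
  have h3 : (fun k : ℕ => R ^ a * ((b * R) ^ k / (k.factorial : ℝ))) =
      (fun m => ‖cf a b m‖ * R ^ m) ∘ (fun k => k + a) := by
    funext k
    simp only [Function.comp, cf]
    rw [if_pos (Nat.le_add_left a k), Nat.add_sub_cancel, norm_div, norm_pow, norm_mul, Complex.norm_I,
      mul_one, Complex.norm_natCast, Complex.norm_real, Real.norm_of_nonneg hb]
    ring
  rw [h3] at h2
  refine (Function.Injective.hasSum_iff (add_left_injective a) ?_).mp h2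
  intro m hm
  have : ¬ a ≤ m := by
    intro h
    exact hm ⟨m - a, Nat.sub_add_cancel h⟩
  simp [cf, this]

lemma det_bound {ι : Type} [Fintype ι] [DecidableEq ι] (x : ι → ℝ) (ρ E : ℝ) (hx : ∀ j, |x j| ≤ ρ)
    (hρ : 0 ≤ ρ) (hE : 1 ≤ E) (r : ι → ℕ) :
    ‖Matrix.det (Matrix.of fun i j : ι => ((x j : ℝ) : ℂ) ^ r i)‖ ≤
      ((Fintype.card ι).factorial : ℝ) * (E ^ (Fintype.card ι * (Fintype.card ι - 1) / 2))⁻¹ *
        ∏ i, (E * ρ) ^ r i := by
  have hE0 : 0 < E := by linarith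
  have hR : 0 ≤ E * ρ := by positivity
  by_cases hinj : Function.Injective r
  · have h1 : ‖Matrix.det (Matrix.of fun i j : ι => ((x j : ℝ) : ℂ) ^ r i)‖ ≤
        ∑ σ : Equiv.Perm ι, ∏ i, ρ ^ r i := by
      rw [Matrix.det_apply']
      refine (norm_sum_le _ _).trans (sum_le_sum fun σ _ => ?_)
      rw [norm_mul]
      have h2 : ‖((Equiv.Perm.sign σ : ℤ) : ℂ)‖ = 1 := by
        rcases Int.units_eq_one_or (Equiv.Perm.sign σ) with h | h <;> rw [h] <;> simp
      rw [h2, one_mul, norm_prod]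
      rw [← Equiv.prod_comp σ (fun i => ρ ^ r i)]
      refine prod_le_prod (fun i _ => norm_nonneg _) (fun i _ => ?_)
      simp only [Matrix.of_apply, norm_pow, Complex.norm_real, Real.norm_eq_abs]
      exact pow_le_pow_left₀ (abs_nonneg _) (hx _) _
    have h3 : ∑ _σ : Equiv.Perm ι, ∏ i, ρ ^ r i = ((Fintype.card ι).factorial : ℝ) * ∏ i, ρ ^ r i := by
      rw [sum_const, card_univ, Fintype.card_perm, nsmul_eq_mul]
    rw [h3] at h1
    refine h1.trans ?_
    rw [mul_assoc]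
    refine mul_le_mul_of_nonneg_left ?_ (by positivity)
    have h4 : ∏ i, (E * ρ) ^ r i = E ^ (∑ i, r i) * ∏ i, ρ ^ r i := by
      rw [← prod_pow_eq_pow_sum, ← prod_mul_distrib]
      exact prod_congr rfl fun i _ => mul_pow _ _ _
    rw [h4, ← mul_assoc]
    have h5 : 1 ≤ (E ^ (Fintype.card ι * (Fintype.card ι - 1) / 2))⁻¹ * E ^ (∑ i, r i) := by
      rw [inv_mul_eq_div, one_le_div (by positivity)]
      exact pow_le_pow_right₀ hE (sum_inj r hinj)
    have h6 : 0 ≤ ∏ i, ρ ^ r i := prod_nonneg fun i _ => pow_nonneg hρ _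
    nlinarith
  · have h1 : Matrix.det (Matrix.of fun i j : ι => ((x j : ℝ) : ℂ) ^ r i) = 0 := by
      rw [Function.Injective] at hinj
      push Not at hinj
      obtain ⟨i, j, hij, hne⟩ := hinj
      apply Matrix.det_zero_of_row_eq hne
      funext k
      simp [hij]
    rw [h1, norm_zero]
    have h6 : 0 ≤ ∏ i, (E * ρ) ^ r i := prod_nonneg fun i _ => pow_nonneg hR _
    positivity

theorem trunc {ι : Type} [Fintype ι] [DecidableEq ι] (a : ι → ℕ) (b x : ι → ℝ) (ρ E : ℝ)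
    (hb : ∀ i, 0 ≤ b i) (hx : ∀ j, |x j| ≤ ρ) (hρ : 0 ≤ ρ) (hE : 1 ≤ E) (K : ℕ) :
    ‖Matrix.det (Matrix.of fun i j : ι => ∑ m ∈ range K, cf (a i) (b i) m * ((x j : ℝ) : ℂ) ^ m)‖ ≤
      ((Fintype.card ι).factorial : ℝ) * (E ^ (Fintype.card ι * (Fintype.card ι - 1) / 2))⁻¹ *
          ∏ i, ((E * ρ) ^ a i * Real.exp (b i * (E * ρ))) := by
  have hE0 : 0 < E := by linarith
  have hR : 0 ≤ E * ρ := by positivity
  have e1 : Matrix.det (Matrix.of fun i j : ι => ∑ m ∈ range K, cf (a i) (b i) m * ((x j : ℝ) : ℂ) ^ m) =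
      ∑ r : ι → Fin K, (∏ i, cf (a i) (b i) (r i)) *
        Matrix.det (Matrix.of fun i j : ι => ((x j : ℝ) : ℂ) ^ ((r i : Fin K) : ℕ)) := by
    have h1 : (Matrix.of fun i j : ι => ∑ m ∈ range K, cf (a i) (b i) m * ((x j : ℝ) : ℂ) ^ m) =
        (fun i => ∑ m : Fin K, cf (a i) (b i) m • (fun j : ι => ((x j : ℝ) : ℂ) ^ (m : ℕ))) := by
      funext i j
      rw [Finset.sum_apply, Matrix.of_apply, Finset.sum_range]
      rfl
    rw [h1]
    have h2 := (Matrix.detRowAlternating (R := ℂ) (n := ι)).toMultilinearMap.map_sum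
      (fun i (m : Fin K) => cf (a i) (b i) m • (fun j : ι => ((x j : ℝ) : ℂ) ^ (m : ℕ)))
    refine h2.trans (sum_congr rfl fun r _ => ?_)
    have h3 := (Matrix.detRowAlternating (R := ℂ) (n := ι)).toMultilinearMap.map_smul_univ
      (fun i => cf (a i) (b i) (r i)) (fun i => (fun j : ι => ((x j : ℝ) : ℂ) ^ ((r i : Fin K) : ℕ)))
    exact h3
  rw [e1]
  refine (norm_sum_le _ _).trans ?_
  have e2 : ∀ r : ι → Fin K, ‖(∏ i, cf (a i) (b i) (r i)) *
      Matrix.det (Matrix.of fun i j : ι => ((x j : ℝ) : ℂ) ^ ((r i : Fin K) : ℕ))‖ ≤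
      ((Fintype.card ι).factorial : ℝ) * (E ^ (Fintype.card ι * (Fintype.card ι - 1) / 2))⁻¹ *
        ∏ i, (‖cf (a i) (b i) (r i)‖ * (E * ρ) ^ ((r i : Fin K) : ℕ)) := by
    intro r
    rw [norm_mul, norm_prod, prod_mul_distrib]
    have h1 := det_bound x ρ E hx hρ hE (fun i => ((r i : Fin K) : ℕ))
    have h2 : 0 ≤ ∏ i, ‖cf (a i) (b i) (r i)‖ := prod_nonneg fun i _ => norm_nonneg _
    calc (∏ i, ‖cf (a i) (b i) (r i)‖) *
          ‖Matrix.det (Matrix.of fun i j : ι => ((x j : ℝ) : ℂ) ^ ((r i : Fin K) : ℕ))‖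
        ≤ (∏ i, ‖cf (a i) (b i) (r i)‖) * (((Fintype.card ι).factorial : ℝ) *
          (E ^ (Fintype.card ι * (Fintype.card ι - 1) / 2))⁻¹ *
            ∏ i, (E * ρ) ^ ((r i : Fin K) : ℕ)) := mul_le_mul_of_nonneg_left h1 h2
      _ = _ := by ring
  refine (sum_le_sum fun r _ => e2 r).trans ?_
  rw [← mul_sum]
  refine mul_le_mul_of_nonneg_left ?_ (by positivity)
  have e3 : ∑ r : ι → Fin K, ∏ i, (‖cf (a i) (b i) (r i)‖ * (E * ρ) ^ ((r i : Fin K) : ℕ)) =
      ∏ i, ∑ m : Fin K, (‖cf (a i) (b i) m‖ * (E * ρ) ^ (m : ℕ)) := by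
    rw [Finset.prod_univ_sum]
    simp
  rw [e3]
  refine prod_le_prod (fun i _ => sum_nonneg fun m _ => by positivity) (fun i _ => ?_)
  rw [← Finset.sum_range (fun m => ‖cf (a i) (b i) m‖ * (E * ρ) ^ m)]
  exact sum_le_hasSum _ (fun m _ => by positivity) (hasSum_norm (a i) (b i) (E * ρ) (hb i))

theorem thm : G_LT1 := by
  intro ι _ _ a b x ρ E hb hx hρ hE
  have hlim : Filter.Tendsto (fun K : ℕ =>
      ‖Matrix.det (Matrix.of fun i j : ι => ∑ m ∈ range K, cf (a i) (b i) m * ((x j : ℝ) : ℂ) ^ m)‖)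
      Filter.atTop (nhds ‖Matrix.det (Matrix.of fun i j : ι =>
        ((x j : ℝ) : ℂ) ^ a i * Complex.exp (((b i * x j : ℝ) : ℂ) * Complex.I))‖) := by
    apply Filter.Tendsto.norm
    have hc : Continuous (fun A : Matrix ι ι ℂ => A.det) := continuous_id.matrix_det
    refine (hc.tendsto _).comp ?_
    refine tendsto_pi_nhds.mpr fun i => tendsto_pi_nhds.mpr fun j => ?_
    exact (hasSum_cf (a i) (b i) (x j)).tendsto_sum_nat
  exact le_of_tendsto' hlim fun K => trunc a b x ρ E hb hx hρ hE K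

end PkLT1
end Pool.Agent.Helper59.LUC
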