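import Pool.Agent.Helper59.LUC.Goals

set_option autoImplicit false

namespace Pool.Agent.Helper59.LUC
namespace PkPV

lemma U_add (P Q : ℤ) (m n : ℕ) : U P Q (m + n + 1) = U P Q (m + 1) * U P Q (n + 1) - Q * U P Q m * U P Q n := by
  induction n using Nat.twoStepInduction with
  | zero => simp [U]
  | one =>
    have e : U P Q (m + 1 + 1) = P * U P Q (m + 1) - Q * U P Q m := rfl
    rw [e]
    simp [U]
    ring
  | more n ih1 ih2 =>
    have e1 : U P Q (m + (n + 2) + 1) = P * U P Q (m + (n + 1) + 1) - Q * U P Q (m + n + 1) := rfl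
    have e2 : U P Q (n + 2 + 1) = P * U P Q (n + 1 + 1) - Q * U P Q (n + 1) := rfl
    have e3 : U P Q (n + 2) = P * U P Q (n + 1) - Q * U P Q n := rfl
    rw [e1, ih1, ih2, e2, e3]
    ring

lemma V_eq_U (P Q : ℤ) (n : ℕ) : V P Q (n + 1) = U P Q (n + 2) - Q * U P Q n := by
  induction n using Nat.twoStepInduction with
  | zero => simp [U, V]
  | one => simp [U, V]; ring
  | more n ih1 ih2 =>
    have e1 : V P Q (n + 2 + 1) = P * V P Q (n + 1 + 1) - Q * V P Q (n + 1) := rfl
    have e2 : U P Q (n + 2 + 2) = P * U P Q (n + 1 + 2) - Q * U P Q (n + 2) := rfl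
    have e3 : U P Q (n + 2) = P * U P Q (n + 1) - Q * U P Q n := rfl
    rw [e1, ih1, ih2, e2]
    conv_rhs => rw [e3]
    rw [e3]
    ring

lemma U_two_mul (P Q : ℤ) (n : ℕ) : U P Q (2 * n) = U P Q n * V P Q n := by
  rcases n with _ | n
  · simp [U]
  · have h1 := U_add P Q (n + 1) n
    have h2 := V_eq_U P Q n
    rw [show 2 * (n + 1) = n + 1 + n + 1 by ring, h1, h2]
    ring

theorem thm : G_PV := by
  intro P Q n hn p hp
  obtain ⟨hpp, hd, hmin⟩ := hp
  have hpi : Prime (p : ℤ) := Nat.prime_iff_prime_int.mp hpp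
  refine ⟨hpp, ?_, ?_⟩
  · rw [U_two_mul] at hd
    rcases hpi.dvd_or_dvd hd with h | h
    · exact absurd h (hmin n (by omega) (by omega))
    · exact h
  · intro m hm hmn hdm
    apply hmin (2 * m) (by omega) (by omega)
    rw [U_two_mul]
    exact dvd_mul_of_dvd_right hdm _

end PkPV
end Pool.Agent.Helper59.LUC
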