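import Pool.Agent.Helper59.LUC.Fin
import Pool.Agent.Helper59.LUC.PV
import Pool.Agent.Helper59.LUC.LT1
import Pool.Agent.Helper49.LUC.RK4
import Pool.Agent.Helper1.LUC.RK2
import Pool.Agent.Helper1.LUC.RK3
import Pool.Agent.Helper1.LUC.UW
import Pool.Agent.Helper10.LUC.LT4
import Pool.Agent.Helper10.LUC.NT
import Pool.Agent.Helper25.LUC.VB
import Pool.Agent.Helper29.LUC.WG
import Pool.Agent.Helper31.LUC.R2
import Pool.Agent.Helper32.LUC.UB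
import Pool.Agent.Helper33.LUC.RK1
import Pool.Agent.Helper34.LUC.LT3
import Pool.Agent.Helper34.LUC.RED
import Pool.Agent.Helper35.LUC.RK5
import Pool.Agent.Helper48.LUC.X
import Pool.Agent.Helper5.LUC.PB
import Pool.Agent.Helper54.LUC.LT6
import Pool.Agent.Helper56.LUC.LT2
import Pool.Agent.Helper57.LUC.ND
import Pool.Agent.Helper58.LUC.GS
import Pool.Agent.Helper73.LUC.Y
import Pool.Agent.Helper75.LUC.SP
import Pool.Agent.Helper77.LUC.WP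
import Pool.Agent.Helper86.LUC.LT5
import Pool.Agent.Helper87.LUC.WC
import Pool.Agent.Helper90.LUC.LB

set_option autoImplicit false

namespace Pool.Agent.Helper59.LUC
namespace All

theorem lt6 : G_LT6 := PkLT6.thm (PkLT5.thm PkLT1.thm PkLT2.thm PkLT3.thm PkLT4.thm)

theorem lb : G_LB := PkLB.thm lt6 PkNT.thm

theorem rk2 : G_RK2 := PkRK2.thm PkRK1.thm PkWC.thm PkWG.thm

theorem rk3 : G_RK3 := PkRK3.thm PkRK1.thm PkWC.thm PkWG.thm

theorem vb : G_VB := PkVB.thm rk3 PkRK4.thm PkWC.thm PkWG.thm PkWP.thm PkRK1.thm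

theorem xx : G_X := PkX.thm lb vb PkRK4.thm rk2 PkNT.thm

theorem yy : G_Y :=
  PkY.thm PkSP.thm PkGS.thm PkPB.thm PkUB.thm lb vb rk2 PkRK4.thm PkRK5.thm PkNT.thm

theorem r2 : G_R2 := PkR2.thm xx yy

/-- Main theorem for `U`. -/
theorem mainU : ∀ (P Q : ℤ), InS P Q →
    ∀ (d k : ℕ) (a b : ℚ) (η α β : ℂ), Squarefree d → 0 < k →
      ((d % 4 = 3 ∧ d ∣ k) ∨ 2 * d ∣ k) →
      a ^ 2 + d * b ^ 2 = 1 → η = (a : ℂ) + (b : ℂ) * ((Real.sqrt d : ℝ) : ℂ) * Complex.I →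
      α + β = P → α * β = Q → (α = η ^ k * β ∨ α = -(η ^ k * β)) →
      {n : ℕ | (Prim (U P Q) n).ncard ≤ 1}.Finite := by
  intro P Q hS d k a b η α β hd hk hdk hab hη hs hp he
  exact PkFIN.fin_of (fun n hn => PkFIN.U_ne hS hs hp hn)
    (PkFIN.finU PkND.thm r2 PkUW.thm PkRED.thm hS hd hk hdk hab hη hs hp he)

/-- Main theorem for `V`. -/
theorem mainV : ∀ (P Q : ℤ), InS P Q →
    ∀ (d k : ℕ) (a b : ℚ) (η α β : ℂ), Squarefree d → 0 < k →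
      a ^ 2 + d * b ^ 2 = 1 → η = (a : ℂ) + (b : ℂ) * ((Real.sqrt d : ℝ) : ℂ) * Complex.I →
      α + β = P → α * β = Q →
      ((α = η ^ k * β ∧ ((d % 4 = 3 ∧ d ∣ k) ∨ 2 * d ∣ k)) ∨ (α = -(η ^ k * β) ∧ 2 ∣ k ∧ d ∣ k)) →
      {n : ℕ | (Prim (V P Q) n).ncard ≤ 1}.Finite := by
  intro P Q hS d k a b η α β hd hk hab hη hs hp he
  exact PkFIN.fin_of (fun n hn => PkFIN.V_ne hS hs hp hn)
    (PkFIN.finV PkND.thm r2 PkUW.thm PkRED.thm PkPV.thm hS hd hk hab hη hs hp he)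

end All
end Pool.Agent.Helper59.LUC
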