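import Pool.Agent.Helper59.LUC.Goals

set_option autoImplicit false

namespace Pool.Agent.Helper59.LUC
namespace PkFIN

lemma binetU (P Q : ℤ) (α β : ℂ) (hs : α + β = P) (hp : α * β = Q) (n : ℕ) :
    (α - β) * (U P Q n : ℂ) = α ^ n - β ^ n := by
  induction n using Nat.twoStepInduction with
  | zero => simp [U]
  | one => simp [U]
  | more n ih1 ih2 =>
    have e : U P Q (n + 2) = P * U P Q (n + 1) - Q * U P Q n := rfl
    rw [e]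
    push_cast
    rw [← hs, ← hp]
    linear_combination (α + β) * ih2 - (α * β) * ih1

lemma binetV (P Q : ℤ) (α β : ℂ) (hs : α + β = P) (hp : α * β = Q) (n : ℕ) :
    (V P Q n : ℂ) = α ^ n + β ^ n := by
  induction n using Nat.twoStepInduction with
  | zero => simp [V]; norm_num
  | one => simp [V, hs]
  | more n ih1 ih2 =>
    have e : V P Q (n + 2) = P * V P Q (n + 1) - Q * V P Q n := rfl
    rw [e]
    push_cast
    rw [← hs, ← hp]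
    linear_combination (α + β) * ih2 - (α * β) * ih1

lemma beta_ne {P Q : ℤ} (h : InS P Q) {α β : ℂ} (hp : α * β = Q) : β ≠ 0 := by
  rintro rfl
  have h2 := h.2.1
  rw [mul_zero] at hp
  exact h2 (by exact_mod_cast hp.symm)

lemma U_ne {P Q : ℤ} (h : InS P Q) {α β : ℂ} (hs : α + β = P) (hp : α * β = Q) {n : ℕ} (hn : 0 < n) :
    U P Q n ≠ 0 := by
  intro h0
  have h1 := binetU P Q α β hs hp n
  rw [h0] at h1
  simp only [Int.cast_zero, mul_zero] at h1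
  have h2 : α ^ n = β ^ n := by linear_combination -h1
  have hb := beta_ne h hp
  apply h.2.2.2.2 α β hs hp n hn
  rw [div_pow, h2, div_self (pow_ne_zero _ hb)]

lemma V_ne {P Q : ℤ} (h : InS P Q) {α β : ℂ} (hs : α + β = P) (hp : α * β = Q) {n : ℕ} (hn : 0 < n) :
    V P Q n ≠ 0 := by
  intro h0
  have h1 := binetV P Q α β hs hp n
  rw [h0] at h1
  simp only [Int.cast_zero] at h1
  have h2 : α ^ n = -β ^ n := by linear_combination -h1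
  have hb := beta_ne h hp
  apply h.2.2.2.2 α β hs hp (2 * n) (by omega)
  rw [div_pow, mul_comm 2 n, pow_mul, pow_mul, h2]
  rw [neg_sq, div_self]
  exact pow_ne_zero _ (pow_ne_zero _ hb)

lemma prim_finite {X : ℕ → ℤ} {n : ℕ} (h : X n ≠ 0) : (Prim X n).Finite := by
  apply Set.Finite.subset (Set.finite_le_nat (X n).natAbs)
  intro p hp
  have h1 := hp.2.1
  have h2 : p ∣ (X n).natAbs := by
    have := Int.natAbs_dvd_natAbs.mpr h1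
    simpa using this
  exact Nat.le_of_dvd (Int.natAbs_pos.mpr h) h2

lemma two_le_ncard {s : Set ℕ} (hs : s.Finite) {p q : ℕ} (hp : p ∈ s) (hq : q ∈ s) (hpq : p ≠ q) :
    ¬ s.ncard ≤ 1 := by
  intro h
  rw [Set.ncard_le_one hs] at h
  exact hpq (h p hp q hq)

lemma prim_plus {X : ℕ → ℤ} {p n : ℕ} (hp : p.Prime) (hn : 0 < n) (h : ∀ m, ((p : ℤ) ∣ X m ↔ n ∣ m)) :
    p ∈ Prim X n := by
  refine ⟨hp, (h n).mpr dvd_rfl, ?_⟩
  intro m hm hmn hd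
  have := Nat.le_of_dvd hm ((h m).mp hd)
  omega

/-- the relation between the order `n'` of `η^k` and the order `n` of `-η^k` -/
def Rel (n n' : ℕ) : Prop := (n % 4 = 0 ∧ n' = n) ∨ (n % 4 = 2 ∧ n = 2 * n') ∨ (n % 2 = 1 ∧ n' = 2 * n)

lemma prim_minus {X : ℕ → ℤ} {p n n' : ℕ} (hp : p.Prime) (hn : 0 < n) (hr : Rel n n')
    (h : ∀ m, ((p : ℤ) ∣ X m ↔ ((Even m ∧ n' ∣ m) ∨ (Odd m ∧ n' ∣ 2 * m ∧ ¬ n' ∣ m)))) :
    p ∈ Prim X n := by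
  rcases hr with ⟨h1, h2⟩ | ⟨h1, h2⟩ | ⟨h1, h2⟩
  · subst h2
    refine ⟨hp, (h n').mpr (Or.inl ⟨Nat.even_iff.mpr (by omega), dvd_rfl⟩), ?_⟩
    intro m hm hmn hd
    rcases (h m).mp hd with ⟨_, h3⟩ | ⟨h3, h4, _⟩
    · have := Nat.le_of_dvd hm h3
      omega
    · have h5 : 4 ∣ 2 * m := dvd_trans (Nat.dvd_of_mod_eq_zero h1) h4
      have h6 := Nat.odd_iff.mp h3
      omega
  · refine ⟨hp, (h n).mpr (Or.inl ⟨Nat.even_iff.mpr (by omega), ⟨2, by omega⟩⟩), ?_⟩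
    intro m hm hmn hd
    have hodd : n' % 2 = 1 := by omega
    have hco : Nat.Coprime n' 2 := by
      rw [Nat.coprime_two_right]
      exact Nat.odd_iff.mpr hodd
    rcases (h m).mp hd with ⟨h3, h4⟩ | ⟨h3, h4, h5⟩
    · have h6 : n' * 2 ∣ m := Nat.Coprime.mul_dvd_of_dvd_of_dvd hco h4 (even_iff_two_dvd.mp h3)
      have := Nat.le_of_dvd hm h6
      omega
    · exact h5 (hco.dvd_of_dvd_mul_left h4)
  · subst h2
    have h0 : ¬ 2 * n ∣ n := by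
      intro h3
      have := Nat.le_of_dvd hn h3
      omega
    refine ⟨hp, (h n).mpr (Or.inr ⟨Nat.odd_iff.mpr h1, dvd_rfl, h0⟩), ?_⟩
    intro m hm hmn hd
    rcases (h m).mp hd with ⟨_, h3⟩ | ⟨_, h4, _⟩
    · have := Nat.le_of_dvd hm h3
      omega
    · have h5 : n ∣ m := Nat.dvd_of_mul_dvd_mul_left (by norm_num) h4
      have := Nat.le_of_dvd hm h5
      omega

/-- basic consequence of the packets: two primes for every large `n'` satisfying the divisibility condition -/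
theorem core (hnd : G_ND) (hr2 : G_R2) (huw : G_UW) (hred : G_RED)
    {P Q : ℤ} (hS : InS P Q) {d k : ℕ} {a b : ℚ} {η α β : ℂ} (hd : Squarefree d) (hk : 0 < k)
    (hab : a ^ 2 + d * b ^ 2 = 1) (hη : η = (a : ℂ) + (b : ℂ) * ((Real.sqrt d : ℝ) : ℂ) * Complex.I)
    (hs : α + β = P) (hp : α * β = Q) (he : α = η ^ k * β ∨ α = -(η ^ k * β)) :
    ∃ n0 : ℕ, ∀ n' : ℕ, n0 ≤ n' →
      ((∀ q : ℕ, q.Prime → q ∣ k → q ∣ n') → ((d % 4 = 3 ∧ d ∣ n' * k) ∨ 4 * d ∣ n' * k)) →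
      ∃ p p' : ℕ, p.Prime ∧ p'.Prime ∧ p ≠ p' ∧
        (α = η ^ k * β → (∀ m : ℕ, ((p : ℤ) ∣ U P Q m ↔ n' ∣ m)) ∧ (∀ m : ℕ, ((p' : ℤ) ∣ U P Q m ↔ n' ∣ m))) ∧
        (α = -(η ^ k * β) →
          (∀ m : ℕ, ((p : ℤ) ∣ U P Q m ↔ ((Even m ∧ n' ∣ m) ∨ (Odd m ∧ n' ∣ 2 * m ∧ ¬ n' ∣ m)))) ∧
          (∀ m : ℕ, ((p' : ℤ) ∣ U P Q m ↔ ((Even m ∧ n' ∣ m) ∨ (Odd m ∧ n' ∣ 2 * m ∧ ¬ n' ∣ m))))) := by
  have hb := beta_ne hS hp
  have hru : ∀ n : ℕ, 0 < n → η ^ n ≠ 1 := by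
    intro n hn h1
    apply hS.2.2.2.2 α β hs hp (2 * n) (by omega)
    have h2 : (α / β) ^ 2 = (η ^ k) ^ 2 := by
      rcases he with h3 | h3
      · rw [h3, mul_div_assoc, div_self hb, mul_one]
      · rw [h3, neg_div, mul_div_assoc, div_self hb, mul_one, neg_sq]
    rw [pow_mul, h2, ← pow_mul, ← pow_mul, show k * (2 * n) = n * (k * 2) by ring, pow_mul, h1, one_pow]
  obtain ⟨T, M, m, hc, hm, hdm⟩ := hred d a b η hd hab hη hru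
  obtain ⟨N, hN⟩ := hnd T M η hc
  have hMne : M ≠ 0 := by have := hc.Mpos; omega
  have hc0 : 2 * M * Q * (P ^ 2 - 4 * Q) ≠ 0 :=
    mul_ne_zero (mul_ne_zero (mul_ne_zero (by norm_num) hMne) hS.2.1) hS.2.2.2.1
  obtain ⟨n0, hn0⟩ := hr2 T M η hc N hN m d k (2 * M * Q * (P ^ 2 - 4 * Q)).natAbs hm hd hdm hk
    (Int.natAbs_pos.mpr hc0)
  refine ⟨n0, ?_⟩
  intro n' hn' hcond
  obtain ⟨p, p', hpp, hpp', hne, hpc, hpc', _, _, hW, hW'⟩ := hn0 n' hn' hcond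
  have key : ∀ q : ℕ, q.Prime → ¬ q ∣ (2 * M * Q * (P ^ 2 - 4 * Q)).natAbs →
      (∀ n : ℕ, ((q : ℤ) ∣ W T M (k * n) ↔ n' ∣ n)) →
      (α = η ^ k * β → (∀ m : ℕ, ((q : ℤ) ∣ U P Q m ↔ n' ∣ m))) ∧
      (α = -(η ^ k * β) →
        (∀ m : ℕ, ((q : ℤ) ∣ U P Q m ↔ ((Even m ∧ n' ∣ m) ∨ (Odd m ∧ n' ∣ 2 * m ∧ ¬ n' ∣ m))))) := by
    intro q hq hqc hqW
    have hqc' : ¬ (q : ℤ) ∣ 2 * M * Q * (P ^ 2 - 4 * Q) := by
      intro h3
      apply hqc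
      have := Int.natAbs_dvd_natAbs.mpr h3
      simpa using this
    obtain ⟨h1, h2⟩ := huw T M η hc P Q α β k hs hp hS.2.1 hS.2.2.2.1 q hq hqc'
    refine ⟨fun h3 m => ?_, fun h3 m => ?_⟩
    · rw [h1 h3 m, hqW m]
    · rw [h2 h3 m, hqW m, hqW (2 * m)]
  refine ⟨p, p', hpp, hpp', hne, ?_, ?_⟩
  · intro h3
    exact ⟨(key p hpp hpc hW).1 h3, (key p' hpp' hpc' hW').1 h3⟩
  · intro h3
    exact ⟨(key p hpp hpc hW).2 h3, (key p' hpp' hpc' hW').2 h3⟩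

lemma cond_plus {d k n : ℕ} (h : (d % 4 = 3 ∧ d ∣ k) ∨ 2 * d ∣ k)
    (hq : ∀ q : ℕ, q.Prime → q ∣ k → q ∣ n) : (d % 4 = 3 ∧ d ∣ n * k) ∨ 4 * d ∣ n * k := by
  rcases h with ⟨h1, h2⟩ | h1
  · exact Or.inl ⟨h1, dvd_mul_of_dvd_right h2 n⟩
  · right
    have h2 : 2 ∣ n := hq 2 Nat.prime_two (dvd_trans (dvd_mul_right 2 d) h1)
    have := mul_dvd_mul h2 h1
    rwa [← mul_assoc] at this

/-- The result for `U`. -/
theorem finU (hnd : G_ND) (hr2 : G_R2) (huw : G_UW) (hred : G_RED)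
    {P Q : ℤ} (hS : InS P Q) {d k : ℕ} {a b : ℚ} {η α β : ℂ} (hd : Squarefree d) (hk : 0 < k)
    (hdk : (d % 4 = 3 ∧ d ∣ k) ∨ 2 * d ∣ k)
    (hab : a ^ 2 + d * b ^ 2 = 1) (hη : η = (a : ℂ) + (b : ℂ) * ((Real.sqrt d : ℝ) : ℂ) * Complex.I)
    (hs : α + β = P) (hp : α * β = Q) (he : α = η ^ k * β ∨ α = -(η ^ k * β)) :
    ∃ n0 : ℕ, ∀ n : ℕ, n0 ≤ n → ∃ p p' : ℕ, p ≠ p' ∧ p ∈ Prim (U P Q) n ∧ p' ∈ Prim (U P Q) n := by
  obtain ⟨n0, hn0⟩ := core hnd hr2 huw hred hS hd hk hab hη hs hp he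
  refine ⟨2 * n0 + 1, ?_⟩
  intro n hn
  rcases he with he | he
  · obtain ⟨p, p', hpp, hpp', hne, h1, _⟩ := hn0 n (by omega) (cond_plus hdk)
    obtain ⟨h2, h3⟩ := h1 he
    exact ⟨p, p', hne, prim_plus hpp (by omega) h2, prim_plus hpp' (by omega) h3⟩
  · obtain ⟨n', hr, hge⟩ : ∃ n' : ℕ, Rel n n' ∧ n0 ≤ n' := by
      by_cases h4 : n % 4 = 0
      · exact ⟨n, Or.inl ⟨h4, rfl⟩, by omega⟩
      · by_cases h2 : n % 4 = 2
        · exact ⟨n / 2, Or.inr (Or.inl ⟨h2, by omega⟩), by omega⟩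
        · exact ⟨2 * n, Or.inr (Or.inr ⟨by omega, rfl⟩), by omega⟩
    obtain ⟨p, p', hpp, hpp', hne, _, h1⟩ := hn0 n' hge (cond_plus hdk)
    obtain ⟨h2, h3⟩ := h1 he
    exact ⟨p, p', hne, prim_minus hpp (by omega) hr h2, prim_minus hpp' (by omega) hr h3⟩

/-- The result for `V`. -/
theorem finV (hnd : G_ND) (hr2 : G_R2) (huw : G_UW) (hred : G_RED) (hpv : G_PV)
    {P Q : ℤ} (hS : InS P Q) {d k : ℕ} {a b : ℚ} {η α β : ℂ} (hd : Squarefree d) (hk : 0 < k)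
    (hab : a ^ 2 + d * b ^ 2 = 1) (hη : η = (a : ℂ) + (b : ℂ) * ((Real.sqrt d : ℝ) : ℂ) * Complex.I)
    (hs : α + β = P) (hp : α * β = Q)
    (he : (α = η ^ k * β ∧ ((d % 4 = 3 ∧ d ∣ k) ∨ 2 * d ∣ k)) ∨ (α = -(η ^ k * β) ∧ 2 ∣ k ∧ d ∣ k)) :
    ∃ n0 : ℕ, ∀ n : ℕ, n0 ≤ n → ∃ p p' : ℕ, p ≠ p' ∧ p ∈ Prim (V P Q) n ∧ p' ∈ Prim (V P Q) n := by
  obtain ⟨n0, hn0⟩ := core hnd hr2 huw hred hS hd hk hab hη hs hp (he.imp And.left And.left)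
  refine ⟨2 * n0 + 1, ?_⟩
  intro n hn
  suffices h : ∃ p p' : ℕ, p ≠ p' ∧ p ∈ Prim (U P Q) (2 * n) ∧ p' ∈ Prim (U P Q) (2 * n) by
    obtain ⟨p, p', h1, h2, h3⟩ := h
    exact ⟨p, p', h1, hpv P Q n (by omega) h2, hpv P Q n (by omega) h3⟩
  rcases he with ⟨he, hdk⟩ | ⟨he, h2k, hdk⟩
  · obtain ⟨p, p', hpp, hpp', hne, h1, _⟩ := hn0 (2 * n) (by omega) (cond_plus hdk)
    obtain ⟨h2, h3⟩ := h1 he
    exact ⟨p, p', hne, prim_plus hpp (by omega) h2, prim_plus hpp' (by omega) h3⟩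
  · obtain ⟨n', hr, hge, hcond⟩ : ∃ n' : ℕ, Rel (2 * n) n' ∧ n0 ≤ n' ∧
        ((∀ q : ℕ, q.Prime → q ∣ k → q ∣ n') → ((d % 4 = 3 ∧ d ∣ n' * k) ∨ 4 * d ∣ n' * k)) := by
      by_cases h2 : n % 2 = 0
      · refine ⟨2 * n, Or.inl ⟨by omega, rfl⟩, by omega, fun _ => Or.inr ?_⟩
        have h4 : 4 ∣ 2 * n := by omega
        exact mul_dvd_mul h4 hdk
      · refine ⟨n, Or.inr (Or.inl ⟨by omega, rfl⟩), by omega, fun hq => ?_⟩
        exfalso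
        have := hq 2 Nat.prime_two h2k
        omega
    obtain ⟨p, p', hpp, hpp', hne, _, h1⟩ := hn0 n' hge hcond
    obtain ⟨h2, h3⟩ := h1 he
    exact ⟨p, p', hne, prim_minus hpp (by omega) hr h2, prim_minus hpp' (by omega) hr h3⟩

lemma fin_of {X : ℕ → ℤ} (hX : ∀ n : ℕ, 0 < n → X n ≠ 0)
    (h : ∃ n0 : ℕ, ∀ n : ℕ, n0 ≤ n → ∃ p p' : ℕ, p ≠ p' ∧ p ∈ Prim X n ∧ p' ∈ Prim X n) :
    {n : ℕ | (Prim X n).ncard ≤ 1}.Finite := by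
  obtain ⟨n0, hn0⟩ := h
  apply Set.Finite.subset (Set.finite_le_nat n0)
  intro n hn
  by_contra hlt
  change (Prim X n).ncard ≤ 1 at hn
  have hlt : n0 < n := not_le.mp hlt
  obtain ⟨p, p', h1, h2, h3⟩ := hn0 n hlt.le
  exact two_le_ncard (prim_finite (hX n (by omega))) h2 h3 h1 hn

end PkFIN
end Pool.Agent.Helper59.LUC
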