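import Pool.Agent.Helper59.LUC.Goals2
import Pool.Agent.Helper59.LUC.Fin

set_option autoImplicit false

namespace Pool.Agent.Helper59.LUC
namespace PkFIN2

open PkFIN

/-- the squarefree part of `-d t` up to sign -/
def uu (d t : ℕ) : ℕ := (d / Nat.gcd d t) * (t / Nat.gcd d t)

theorem gpos {d t : ℕ} (hd : 0 < d) : 0 < Nat.gcd d t := Nat.gcd_pos_of_pos_left t hd

theorem uu_mul (d t : ℕ) : uu d t * (Nat.gcd d t * Nat.gcd d t) = d * t := by
  unfold uu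
  have h1 : d / Nat.gcd d t * Nat.gcd d t = d := Nat.div_mul_cancel (Nat.gcd_dvd_left d t)
  have h2 : t / Nat.gcd d t * Nat.gcd d t = t := Nat.div_mul_cancel (Nat.gcd_dvd_right d t)
  calc d / Nat.gcd d t * (t / Nat.gcd d t) * (Nat.gcd d t * Nat.gcd d t)
      = (d / Nat.gcd d t * Nat.gcd d t) * (t / Nat.gcd d t * Nat.gcd d t) := by ring
    _ = d * t := by rw [h1, h2]

theorem uu_cop {d t : ℕ} (hd : 0 < d) : Nat.Coprime (d / Nat.gcd d t) (t / Nat.gcd d t) :=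
  Nat.coprime_div_gcd_div_gcd (gpos hd)

theorem uu_sqf {d t : ℕ} (hd : Squarefree d) (ht : Squarefree t) : Squarefree (uu d t) := by
  have hd0 : 0 < d := Nat.pos_of_ne_zero hd.ne_zero
  unfold uu
  rw [Nat.squarefree_mul_iff]
  exact ⟨uu_cop hd0, hd.squarefree_of_dvd (Nat.div_dvd_of_dvd (Nat.gcd_dvd_left d t)),
    ht.squarefree_of_dvd (Nat.div_dvd_of_dvd (Nat.gcd_dvd_right d t))⟩

theorem uu_dvd {d t r : ℕ} (hd : 0 < d) (h1 : d ∣ r) (h2 : t ∣ r) : uu d t ∣ r := by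
  unfold uu
  exact (uu_cop hd).mul_dvd_of_dvd_of_dvd ((Nat.div_dvd_of_dvd (Nat.gcd_dvd_left d t)).trans h1)
    ((Nat.div_dvd_of_dvd (Nat.gcd_dvd_right d t)).trans h2)

theorem odd_sq {g : ℕ} (h : g % 2 = 1) : ∃ q, g * g = 4 * q + 1 := by
  refine ⟨(g / 2) * (g / 2) + g / 2, ?_⟩
  have h1 : g = 2 * (g / 2) + 1 := by omega
  generalize g / 2 = e at *
  subst h1
  ring

/-- both odd -/
theorem uu_mod4 {d t : ℕ} (h1 : d % 2 = 1) : uu d t % 4 = (d * t) % 4 := by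
  have hg : Nat.gcd d t % 2 = 1 := by
    by_contra hcon
    have h3 : 2 ∣ Nat.gcd d t := by omega
    have := h3.trans (Nat.gcd_dvd_left d t)
    omega
  obtain ⟨q, hq⟩ := odd_sq hg
  have h4 := uu_mul d t
  rw [hq] at h4
  rw [← h4]
  have : uu d t * (4 * q + 1) = 4 * (uu d t * q) + uu d t := by ring
  rw [this]
  omega

/-- `d` even, `t` odd -/
theorem uu_even {d t : ℕ} (h1 : d % 2 = 0) (h2 : t % 2 = 1) : uu d t % 2 = 0 := by
  have hg : Nat.gcd d t % 2 = 1 := by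
    by_contra hcon
    have h3 : 2 ∣ Nat.gcd d t := by omega
    have := h3.trans (Nat.gcd_dvd_right d t)
    omega
  obtain ⟨q, hq⟩ := odd_sq hg
  have h4 := uu_mul d t
  rw [hq] at h4
  have h5 : uu d t * (4 * q + 1) = 4 * (uu d t * q) + uu d t := by ring
  rw [h5] at h4
  have h6 : (d * t) % 2 = 0 := by
    rw [Nat.mul_mod, h1]
    simp
  omega

/-- both even -/
theorem uu_ee {d t : ℕ} (h1 : d % 4 = 2) (h2 : t % 2 = 0) : (4 * uu d t) % 16 = (d * t) % 16 := by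
  have hg2 : 2 ∣ Nat.gcd d t := Nat.dvd_gcd (by omega) (by omega)
  have hg4 : ¬ 4 ∣ Nat.gcd d t := by
    intro h
    have := h.trans (Nat.gcd_dvd_left d t)
    omega
  obtain ⟨e, he⟩ := hg2
  have heo : e % 2 = 1 := by
    by_contra hcon
    apply hg4
    rw [he]
    obtain ⟨f, hf⟩ : 2 ∣ e := by omega
    exact ⟨f, by rw [hf]; ring⟩
  obtain ⟨q, hq⟩ := odd_sq heo
  have h4 := uu_mul d t
  have h5 : uu d t * (Nat.gcd d t * Nat.gcd d t) = 16 * (uu d t * q) + 4 * uu d t := by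
    rw [he]
    calc uu d t * (2 * e * (2 * e)) = 4 * uu d t * (e * e) := by ring
      _ = 4 * uu d t * (4 * q + 1) := by rw [hq]
      _ = 16 * (uu d t * q) + 4 * uu d t := by ring
  rw [h5] at h4
  omega

/-- the condition on `r` -/
def Cd (d t r : ℕ) : Prop :=
  ((d % 4 = 3 ∧ d ∣ r) ∨ 4 * d ∣ r) ∨ TwC (t : ℤ) r ∨ TwC (-(uu d t : ℤ)) r

theorem twc_t {t r : ℕ} (h : t ∣ r)
    (h2 : (r % 2 = 1 ∧ t % 4 = 1) ∨ (r % 4 = 2 ∧ t % 4 = 3) ∨ (r % 8 = 4 ∧ t % 2 = 0)) :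
    TwC (t : ℤ) r := by
  refine ⟨by exact_mod_cast h, ?_⟩
  omega

theorem twc_u {u r : ℕ} (h : u ∣ r)
    (h2 : (r % 2 = 1 ∧ u % 4 = 3) ∨ (r % 4 = 2 ∧ u % 4 = 1) ∨ (r % 8 = 4 ∧ u % 2 = 0)) :
    TwC (-(u : ℤ)) r := by
  refine ⟨by rw [neg_dvd]; exact_mod_cast h, ?_⟩
  omega

/-- the main case distinction for `d ∣ k`, `t ∣ k` -/
theorem condU {d t k n : ℕ} (hd : Squarefree d) (hdk : d ∣ k) (htk : t ∣ k)
    (hq : ∀ q : ℕ, q.Prime → q ∣ k → q ∣ n) : Cd d t (n * k) := by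
  have hd0 : 0 < d := Nat.pos_of_ne_zero hd.ne_zero
  by_cases h3 : d % 4 = 3
  · exact Or.inl (Or.inl ⟨h3, dvd_mul_of_dvd_right hdk n⟩)
  by_cases h2 : 2 * d ∣ k
  · exact Or.inl (cond_plus (Or.inr h2) hq)
  have hd4 : d % 4 ≠ 0 := by
    intro h
    have h4 : 2 * 2 ∣ d := by omega
    exact absurd (hd 2 h4) (by norm_num)
  obtain ⟨k1, hk1⟩ := hdk
  have hk1o : k1 % 2 = 1 := by
    by_contra hcon
    obtain ⟨k2, hk2⟩ : 2 ∣ k1 := by omega
    exact h2 ⟨k2, by rw [hk1, hk2]; ring⟩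
  have hdr : d ∣ n * k := dvd_mul_of_dvd_right ⟨k1, hk1⟩ n
  have htr : t ∣ n * k := dvd_mul_of_dvd_right htk n
  have hur : uu d t ∣ n * k := uu_dvd hd0 hdr htr
  by_cases hn4 : n % 4 = 0
  · refine Or.inl (Or.inr ?_)
    have h5 : 4 ∣ n := by omega
    exact mul_dvd_mul h5 ⟨k1, hk1⟩
  rcases Nat.even_or_odd d with hde | hdo
  · -- `d` even
    have hde' : d % 4 = 2 := by have := Nat.even_iff.1 hde; omega
    have hk4 : k % 4 = 2 := by
      rw [hk1, Nat.mul_mod, hde']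
      have : k1 % 4 = 1 ∨ k1 % 4 = 3 := by omega
      rcases this with h | h <;> rw [h]
    have hn2 : 2 ∣ n := hq 2 Nat.prime_two (by omega)
    have hn2' : n % 4 = 2 := by omega
    have hr : (n * k) % 8 = 4 := by
      obtain ⟨n1, hn1⟩ := hn2
      obtain ⟨k3, hk3⟩ : 2 ∣ k := by omega
      have h6 : n1 % 2 = 1 := by omega
      have h7 : k3 % 2 = 1 := by omega
      have h8 : (n1 * k3) % 2 = 1 := by rw [Nat.mul_mod, h6, h7]
      have h9 : n * k = 4 * (n1 * k3) := by rw [hn1, hk3]; ring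
      rw [h9]
      omega
    rcases Nat.even_or_odd t with hte | hto
    · exact Or.inr (Or.inl (twc_t htr (Or.inr (Or.inr ⟨hr, Nat.even_iff.1 hte⟩))))
    · exact Or.inr (Or.inr (twc_u hur (Or.inr (Or.inr ⟨hr, uu_even (by omega) (Nat.odd_iff.1 hto)⟩))))
  · -- `d` odd
    have hdo' := Nat.odd_iff.1 hdo
    have hd1 : d % 4 = 1 := by omega
    have hko : k % 2 = 1 := by rw [hk1, Nat.mul_mod, hdo', hk1o]
    have hto : t % 2 = 1 := by
      by_contra hcon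
      have : 2 ∣ k := (show 2 ∣ t by omega).trans htk
      omega
    have hu := uu_mod4 (d := d) (t := t) hdo'
    have hu2 : (d * t) % 4 = t % 4 := by
      rw [Nat.mul_mod, hd1]
      omega
    rcases Nat.even_or_odd n with hne | hno
    · have hn2 : n % 4 = 2 := by have := Nat.even_iff.1 hne; omega
      have hr : (n * k) % 4 = 2 := by
        rw [Nat.mul_mod, hn2]
        have : k % 4 = 1 ∨ k % 4 = 3 := by omega
        rcases this with h | h <;> rw [h]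
      by_cases ht : t % 4 = 3
      · exact Or.inr (Or.inl (twc_t htr (Or.inr (Or.inl ⟨hr, ht⟩))))
      · exact Or.inr (Or.inr (twc_u hur (Or.inr (Or.inl ⟨hr, by omega⟩))))
    · have hr : (n * k) % 2 = 1 := by rw [Nat.mul_mod, Nat.odd_iff.1 hno, hko]
      by_cases ht : t % 4 = 1
      · exact Or.inr (Or.inl (twc_t htr (Or.inl ⟨hr, ht⟩)))
      · exact Or.inr (Or.inr (twc_u hur (Or.inl ⟨hr, by omega⟩)))

/-- the extra case for `V`, `r` even, sign `+` -/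
theorem condVp {d t k n : ℕ} (hd : Squarefree d) (hd2 : d % 2 = 0) (hk : k % 2 = 1)
    (hdk : d ∣ 2 * k) (htk : t ∣ 2 * k) (hc : t % 4 = 3 ∨ (d * t) % 16 = 4) :
    Cd d t (2 * n * k) := by
  have hd0 : 0 < d := Nat.pos_of_ne_zero hd.ne_zero
  have hd4 : d % 4 = 2 := by
    have : d % 4 ≠ 0 := by
      intro h
      have h4 : 2 * 2 ∣ d := by omega
      exact absurd (hd 2 h4) (by norm_num)
    omega
  have e : 2 * n * k = n * (2 * k) := by ring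
  have hdr : d ∣ 2 * n * k := by rw [e]; exact dvd_mul_of_dvd_right hdk n
  have htr : t ∣ 2 * n * k := by rw [e]; exact dvd_mul_of_dvd_right htk n
  have hur : uu d t ∣ 2 * n * k := uu_dvd hd0 hdr htr
  by_cases hn4 : n % 4 = 0
  · refine Or.inl (Or.inr ?_)
    rw [e]
    exact mul_dvd_mul (show 4 ∣ n by omega) hdk
  by_cases hn2 : n % 2 = 0
  · -- `r ≡ 4 mod 8`
    have hr : (2 * n * k) % 8 = 4 := by
      obtain ⟨n1, hn1⟩ : 2 ∣ n := by omega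
      have h6 : n1 % 2 = 1 := by omega
      have h8 : (n1 * k) % 2 = 1 := by rw [Nat.mul_mod, h6, hk]
      have h9 : 2 * n * k = 4 * (n1 * k) := by rw [hn1]; ring
      rw [h9]
      omega
    rcases Nat.even_or_odd t with hte | hto
    · exact Or.inr (Or.inl (twc_t htr (Or.inr (Or.inr ⟨hr, Nat.even_iff.1 hte⟩))))
    · exact Or.inr (Or.inr (twc_u hur (Or.inr (Or.inr ⟨hr, uu_even (by omega) (Nat.odd_iff.1 hto)⟩))))
  · have hr : (2 * n * k) % 4 = 2 := by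
      have h8 : (n * k) % 2 = 1 := by rw [Nat.mul_mod, hk]; omega
      have h9 : 2 * n * k = 2 * (n * k) := by ring
      rw [h9]
      omega
    rcases hc with hc | hc
    · exact Or.inr (Or.inl (twc_t htr (Or.inr (Or.inl ⟨hr, hc⟩))))
    · have ht2 : t % 2 = 0 := by
        by_contra hcon
        have h1 : (d * t) % 4 = 2 := by
          rw [Nat.mul_mod, hd4]
          have : t % 4 = 1 ∨ t % 4 = 3 := by omega
          rcases this with h | h <;> rw [h]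
        omega
      have h2 := uu_ee hd4 ht2
      exact Or.inr (Or.inr (twc_u hur (Or.inr (Or.inl ⟨hr, by omega⟩))))

/-- the extra case for `V`, sign `-` -/
theorem condVm {d t k n : ℕ} (hd : Squarefree d) (hd2 : d % 2 = 0) (hk : k % 2 = 1)
    (hdk : d ∣ 2 * k) (htk : t ∣ 2 * k) (hc : t % 4 = 1 ∨ (d * t) % 16 = 12)
    (hn : n % 2 = 1 ∨ n % 4 = 0) (hq : ∀ q : ℕ, q.Prime → q ∣ k → q ∣ n) :
    Cd d t (n * k) := by
  have hd0 : 0 < d := Nat.pos_of_ne_zero hd.ne_zero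
  have hd4 : d % 4 = 2 := by
    have : d % 4 ≠ 0 := by
      intro h
      have h4 : 2 * 2 ∣ d := by omega
      exact absurd (hd 2 h4) (by norm_num)
    omega
  rcases hn with hn | hn
  · -- odd
    have hr : (n * k) % 2 = 1 := by rw [Nat.mul_mod, hn, hk]
    rcases hc with hc | hc
    · have htk' : t ∣ k := by
        have : Nat.Coprime t 2 := by
          rw [Nat.coprime_two_right]
          exact Nat.odd_iff.2 (by omega)
        exact this.dvd_of_dvd_mul_left htk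
      exact Or.inr (Or.inl (twc_t (dvd_mul_of_dvd_right htk' n) (Or.inl ⟨hr, hc⟩)))
    · have ht2 : t % 2 = 0 := by
        by_contra hcon
        have h1 : (d * t) % 4 = 2 := by
          rw [Nat.mul_mod, hd4]
          have : t % 4 = 1 ∨ t % 4 = 3 := by omega
          rcases this with h | h <;> rw [h]
        omega
      have h2 := uu_ee hd4 ht2
      have hu3 : uu d t % 4 = 3 := by omega
      have huk : uu d t ∣ k := by
        have h3 : uu d t ∣ 2 * k := uu_dvd hd0 hdk htk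
        have : Nat.Coprime (uu d t) 2 := by
          rw [Nat.coprime_two_right]
          exact Nat.odd_iff.2 (by omega)
        exact this.dvd_of_dvd_mul_left h3
      exact Or.inr (Or.inr (twc_u (dvd_mul_of_dvd_right huk n) (Or.inl ⟨hr, hu3⟩)))
  · obtain ⟨n1, hn1⟩ : 4 ∣ n := by omega
    have e : n * k = 2 * n1 * (2 * k) := by rw [hn1]; ring
    have hdr : d ∣ n * k := by rw [e]; exact dvd_mul_of_dvd_right hdk _
    have htr : t ∣ n * k := by rw [e]; exact dvd_mul_of_dvd_right htk _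
    have hur : uu d t ∣ n * k := uu_dvd hd0 hdr htr
    by_cases hn2 : n1 % 2 = 0
    · refine Or.inl (Or.inr ?_)
      obtain ⟨n2, hn2'⟩ : 2 ∣ n1 := by omega
      obtain ⟨v, hv⟩ := hdk
      exact ⟨n2 * v, by rw [e, hn2', hv]; ring⟩
    · have hr : (n * k) % 8 = 4 := by
        have h8 : (n1 * k) % 2 = 1 := by rw [Nat.mul_mod, hk]; omega
        have h9 : n * k = 4 * (n1 * k) := by rw [hn1]; ring
        rw [h9]
        omega
      rcases Nat.even_or_odd t with hte | hto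
      · exact Or.inr (Or.inl (twc_t htr (Or.inr (Or.inr ⟨hr, Nat.even_iff.1 hte⟩))))
      · exact Or.inr (Or.inr (twc_u hur (Or.inr (Or.inr ⟨hr, uu_even (by omega) (Nat.odd_iff.1 hto)⟩))))

/-! ### The field data -/

theorem isSq_of_rat {z : ℤ} {q : ℚ} (h : (z : ℚ) = q ^ 2) : ∃ c : ℤ, z = c ^ 2 := by
  have h1 : IsSquare (z : ℚ) := ⟨q, by rw [h]; ring⟩
  obtain ⟨c, hc⟩ := Rat.isSquare_intCast_iff.1 h1
  exact ⟨c, by rw [hc]; ring⟩

theorem sqc {T M m : ℤ} {η : ℂ} (hc : Ctx T M η) {d t : ℕ} {a b c : ℚ} (hd : Squarefree d)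
    (ht : Squarefree t) (hη : η = (a : ℂ) + (b : ℂ) * ((Real.sqrt d : ℝ) : ℂ) * Complex.I)
    (hm : m ≠ 0) (hdm : 4 * M ^ 2 - T ^ 2 = (d : ℤ) * m ^ 2) (hct : c ^ 2 = t * (2 + 2 * a)) :
    SqC T M (t : ℤ) ∧ SqC T M (-(uu d t : ℤ)) := by
  have hd0 : 0 < d := Nat.pos_of_ne_zero hd.ne_zero
  have ht0 : 0 < t := Nat.pos_of_ne_zero ht.ne_zero
  have hM := hc.Mpos
  have hlt := hc.hlt
  have hT1 : 0 < T + 2 * M := by nlinarith
  have hT2 : T - 2 * M < 0 := by nlinarith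
  -- `T = 2 a M`
  have hTa : (T : ℚ) = 2 * a * M := by
    have h1 := hc.add_inv
    rw [← hc.conj_eq] at h1
    have h2 : η + (starRingEnd ℂ) η = ((2 * a : ℚ) : ℂ) := by
      rw [Complex.add_conj]
      have h3 : η.re = (a : ℝ) := by
        rw [hη]
        have e1 : ((a : ℂ) + (b : ℂ) * ((Real.sqrt d : ℝ) : ℂ) * Complex.I) =
            (((a : ℝ) : ℂ) + (((b : ℝ) * Real.sqrt d : ℝ) : ℂ) * Complex.I) := by
          push_cast
          ring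
        rw [e1, Complex.add_re, Complex.ofReal_re, Complex.re_ofReal_mul, Complex.I_re, mul_zero, add_zero]
      rw [h3]
      push_cast
      ring
    rw [h2] at h1
    have h4 : ((M : ℚ) : ℂ) * ((2 * a : ℚ) : ℂ) = ((T : ℚ) : ℂ) := by
      push_cast
      push_cast at h1
      exact h1
    have h5 : (M : ℚ) * (2 * a) = T := by exact_mod_cast h4
    rw [← h5]
    ring
  -- first square
  have h1 : ∃ c1 : ℤ, (t : ℤ) * (M * (T + 2 * M)) = c1 ^ 2 := by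
    refine isSq_of_rat (q := c * M) ?_
    push_cast
    rw [mul_pow, hct, hTa]
    ring
  obtain ⟨c1, hc1⟩ := h1
  have hc10 : c1 ≠ 0 := by
    rintro rfl
    have h2 : (0 : ℤ) < (t : ℤ) * (M * (T + 2 * M)) := by positivity
    rw [hc1] at h2
    norm_num at h2
  refine ⟨⟨c1, hc10, Or.inl hc1⟩, ?_⟩
  have hg := gpos (t := t) hd0
  have hu := uu_mul d t
  have huZ : (uu d t : ℤ) * ((Nat.gcd d t : ℤ) * (Nat.gcd d t : ℤ)) = (d : ℤ) * (t : ℤ) := by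
    exact_mod_cast hu
  have hgZ : (Nat.gcd d t : ℤ) ≠ 0 := by exact_mod_cast hg.ne'
  have key : (-(uu d t : ℤ) * (M * (T - 2 * M))) * (c1 * Nat.gcd d t) ^ 2 = (d * t * M * m) ^ 2 := by
    calc (-(uu d t : ℤ) * (M * (T - 2 * M))) * (c1 * Nat.gcd d t) ^ 2
        = -((uu d t : ℤ) * ((Nat.gcd d t : ℤ) * (Nat.gcd d t : ℤ))) * (M * (T - 2 * M)) * c1 ^ 2 := by ring
      _ = -((d : ℤ) * t) * (M * (T - 2 * M)) * ((t : ℤ) * (M * (T + 2 * M))) := by rw [huZ, hc1]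
      _ = (d : ℤ) * t ^ 2 * M ^ 2 * (4 * M ^ 2 - T ^ 2) := by ring
      _ = (d * t * M * m) ^ 2 := by rw [hdm]; ring
  have h2 : ∃ c2 : ℤ, -(uu d t : ℤ) * (M * (T - 2 * M)) = c2 ^ 2 := by
    refine isSq_of_rat (q := (d * t * M * m : ℤ) / (c1 * Nat.gcd d t : ℤ)) ?_
    have h3 : ((c1 * Nat.gcd d t : ℤ) : ℚ) ≠ 0 := by
      exact_mod_cast mul_ne_zero hc10 hgZ
    rw [div_pow, eq_div_iff (pow_ne_zero 2 h3)]
    exact_mod_cast key
  obtain ⟨c2, hc2⟩ := h2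
  have hc20 : c2 ≠ 0 := by
    rintro rfl
    have h3 : -(uu d t : ℤ) * (M * (T - 2 * M)) ≠ 0 := by
      have hu0 : (uu d t : ℤ) ≠ 0 := by
        intro h
        rw [h, zero_mul] at huZ
        have : (0 : ℤ) < d * t := by positivity
        omega
      exact mul_ne_zero (neg_ne_zero.2 hu0) (mul_ne_zero hM.ne' hT2.ne)
    apply h3
    rw [hc2]
    norm_num
  exact ⟨c2, hc20, Or.inr hc2⟩

theorem uu_sqfZ {d t : ℕ} (hd : Squarefree d) (ht : Squarefree t) : Squarefree (-(uu d t : ℤ)) := by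
  rw [← Int.squarefree_natAbs, Int.natAbs_neg, Int.natAbs_natCast]
  exact uu_sqf hd ht

/-- basic consequence of the packets: two primes for every large `n'` satisfying the condition -/
theorem core2 (hnd : G_ND) (hr2 : G_R2B) (huw : G_UW) (hred : G_RED) (hY : G_Y) (hY2 : G_Y2)
    {P Q : ℤ} (hS : InS P Q) {d k t : ℕ} {a b c : ℚ} {η α β : ℂ} (hd : Squarefree d) (ht : Squarefree t)
    (hk : 0 < k) (hct : c ^ 2 = t * (2 + 2 * a))
    (hab : a ^ 2 + d * b ^ 2 = 1) (hη : η = (a : ℂ) + (b : ℂ) * ((Real.sqrt d : ℝ) : ℂ) * Complex.I)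
    (hs : α + β = P) (hp : α * β = Q) (he : α = η ^ k * β ∨ α = -(η ^ k * β)) :
    ∃ n0 : ℕ, ∀ n' : ℕ, n0 ≤ n' →
      ((∀ q : ℕ, q.Prime → q ∣ k → q ∣ n') → Cd d t (n' * k)) →
      ∃ p p' : ℕ, p.Prime ∧ p'.Prime ∧ p ≠ p' ∧
        (α = η ^ k * β → (∀ m : ℕ, ((p : ℤ) ∣ U P Q m ↔ n' ∣ m)) ∧ (∀ m : ℕ, ((p' : ℤ) ∣ U P Q m ↔ n' ∣ m))) ∧
        (α = -(η ^ k * β) →
          (∀ m : ℕ, ((p : ℤ) ∣ U P Q m ↔ ((Even m ∧ n' ∣ m) ∨ (Odd m ∧ n' ∣ 2 * m ∧ ¬ n' ∣ m)))) ∧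
          (∀ m : ℕ, ((p' : ℤ) ∣ U P Q m ↔ ((Even m ∧ n' ∣ m) ∨ (Odd m ∧ n' ∣ 2 * m ∧ ¬ n' ∣ m))))) := by
  have hb := beta_ne hS hp
  have hru : ∀ n : ℕ, 0 < n → η ^ n ≠ 1 := by
    intro n hn h1
    apply hS.2.2.2.2 α β hs hp (2 * n) (by omega)
    have h2 : (α / β) ^ 2 = (η ^ k) ^ 2 := by
      rcases he with h3 | h3
      · rw [h3, mul_div_assoc, div_self hb, mul_one]
      · rw [h3, neg_div, mul_div_assoc, div_self hb, mul_one, neg_sq]
    rw [pow_mul, h2, ← pow_mul, ← pow_mul, show k * (2 * n) = n * (k * 2) by ring, pow_mul, h1, one_pow]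
  obtain ⟨T, M, m, hc, hm, hdm⟩ := hred d a b η hd hab hη hru
  obtain ⟨N, hN⟩ := hnd T M η hc
  have hMne : M ≠ 0 := by have := hc.Mpos; omega
  have hc0 : 2 * M * Q * (P ^ 2 - 4 * Q) ≠ 0 :=
    mul_ne_zero (mul_ne_zero (mul_ne_zero (by norm_num) hMne) hS.2.1) hS.2.2.2.1
  obtain ⟨hs1, hs2⟩ := sqc hc hd ht hη hm hdm hct
  have htwo : ∃ r0 : ℕ, ∀ r : ℕ, r0 ≤ r → Cd d t r → TwoPr T M r := by
    obtain ⟨r1, hr1⟩ := hY T M η hc N hN m d hm hd hdm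
    obtain ⟨r2, hr2'⟩ := hY2 T M η hc N hN (t : ℤ) (by
      rw [← Int.squarefree_natAbs, Int.natAbs_natCast]; exact ht) hs1
    obtain ⟨r3, hr3⟩ := hY2 T M η hc N hN (-(uu d t : ℤ)) (uu_sqfZ hd ht) hs2
    refine ⟨r1 + r2 + r3, fun r hr hcd => ?_⟩
    rcases hcd with h | h | h
    · exact hr1 r (by omega) h
    · exact hr2' r (by omega) h
    · exact hr3 r (by omega) h
  obtain ⟨n0, hn0⟩ := hr2 T M η hc N hN (Cd d t) htwo k (2 * M * Q * (P ^ 2 - 4 * Q)).natAbs hk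
    (Int.natAbs_pos.mpr hc0)
  refine ⟨n0, ?_⟩
  intro n' hn' hcond
  obtain ⟨p, p', hpp, hpp', hne, hpc, hpc', _, _, hW, hW'⟩ := hn0 n' hn' hcond
  have key : ∀ q : ℕ, q.Prime → ¬ q ∣ (2 * M * Q * (P ^ 2 - 4 * Q)).natAbs →
      (∀ n : ℕ, ((q : ℤ) ∣ W T M (k * n) ↔ n' ∣ n)) →
      (α = η ^ k * β → (∀ m : ℕ, ((q : ℤ) ∣ U P Q m ↔ n' ∣ m))) ∧
      (α = -(η ^ k * β) →
        (∀ m : ℕ, ((q : ℤ) ∣ U P Q m ↔ ((Even m ∧ n' ∣ m) ∨ (Odd m ∧ n' ∣ 2 * m ∧ ¬ n' ∣ m))))) := by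
    intro q hq hqc hqW
    have hqc' : ¬ (q : ℤ) ∣ 2 * M * Q * (P ^ 2 - 4 * Q) := by
      intro h3
      apply hqc
      have := Int.natAbs_dvd_natAbs.mpr h3
      simpa using this
    obtain ⟨h1, h2⟩ := huw T M η hc P Q α β k hs hp hS.2.1 hS.2.2.2.1 q hq hqc'
    refine ⟨fun h3 m => ?_, fun h3 m => ?_⟩
    · rw [h1 h3 m, hqW m]
    · rw [h2 h3 m, hqW m, hqW (2 * m)]
  refine ⟨p, p', hpp, hpp', hne, ?_, ?_⟩
  · intro h3
    exact ⟨(key p hpp hpc hW).1 h3, (key p' hpp' hpc' hW').1 h3⟩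
  · intro h3
    exact ⟨(key p hpp hpc hW).2 h3, (key p' hpp' hpc' hW').2 h3⟩

theorem exists_rel {n0 n : ℕ} (hn : 2 * n0 + 1 ≤ n) : ∃ n' : ℕ, Rel n n' ∧ n0 ≤ n' := by
  by_cases h4 : n % 4 = 0
  · exact ⟨n, Or.inl ⟨h4, rfl⟩, by omega⟩
  · by_cases h2 : n % 4 = 2
    · exact ⟨n / 2, Or.inr (Or.inl ⟨h2, by omega⟩), by omega⟩
    · exact ⟨2 * n, Or.inr (Or.inr ⟨by omega, rfl⟩), by omega⟩

/-- The result for `U`, new case. -/
theorem finU2 (hnd : G_ND) (hr2 : G_R2B) (huw : G_UW) (hred : G_RED) (hY : G_Y) (hY2 : G_Y2)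
    {P Q : ℤ} (hS : InS P Q) {d k t : ℕ} {a b c : ℚ} {η α β : ℂ} (hd : Squarefree d) (ht : Squarefree t)
    (hk : 0 < k) (hdk : d ∣ k) (htk : t ∣ k) (hct : c ^ 2 = t * (2 + 2 * a))
    (hab : a ^ 2 + d * b ^ 2 = 1) (hη : η = (a : ℂ) + (b : ℂ) * ((Real.sqrt d : ℝ) : ℂ) * Complex.I)
    (hs : α + β = P) (hp : α * β = Q) (he : α = η ^ k * β ∨ α = -(η ^ k * β)) :
    ∃ n0 : ℕ, ∀ n : ℕ, n0 ≤ n → ∃ p p' : ℕ, p ≠ p' ∧ p ∈ Prim (U P Q) n ∧ p' ∈ Prim (U P Q) n := by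
  obtain ⟨n0, hn0⟩ := core2 hnd hr2 huw hred hY hY2 hS hd ht hk hct hab hη hs hp he
  refine ⟨2 * n0 + 1, ?_⟩
  intro n hn
  rcases he with he | he
  · obtain ⟨p, p', hpp, hpp', hne, h1, _⟩ := hn0 n (by omega) (condU hd hdk htk)
    obtain ⟨h2, h3⟩ := h1 he
    exact ⟨p, p', hne, prim_plus hpp (by omega) h2, prim_plus hpp' (by omega) h3⟩
  · obtain ⟨n', hr, hge⟩ := exists_rel hn
    obtain ⟨p, p', hpp, hpp', hne, _, h1⟩ := hn0 n' hge (condU hd hdk htk)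
    obtain ⟨h2, h3⟩ := h1 he
    exact ⟨p, p', hne, prim_minus hpp (by omega) hr h2, prim_minus hpp' (by omega) hr h3⟩

/-- The result for `V`, new cases. -/
theorem finV2 (hnd : G_ND) (hr2 : G_R2B) (huw : G_UW) (hred : G_RED) (hpv : G_PV) (hY : G_Y) (hY2 : G_Y2)
    {P Q : ℤ} (hS : InS P Q) {d k t : ℕ} {a b c : ℚ} {η α β : ℂ} (hd : Squarefree d) (ht : Squarefree t)
    (hk : 0 < k) (hct : c ^ 2 = t * (2 + 2 * a))
    (hab : a ^ 2 + d * b ^ 2 = 1) (hη : η = (a : ℂ) + (b : ℂ) * ((Real.sqrt d : ℝ) : ℂ) * Complex.I)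
    (hs : α + β = P) (hp : α * β = Q)
    (he : ((α = η ^ k * β ∨ α = -(η ^ k * β)) ∧ d ∣ k ∧ t ∣ k) ∨
      (d % 2 = 0 ∧ k % 2 = 1 ∧ d ∣ 2 * k ∧ t ∣ 2 * k ∧
        ((α = η ^ k * β ∧ (t % 4 = 3 ∨ (d * t) % 16 = 4)) ∨
          (α = -(η ^ k * β) ∧ (t % 4 = 1 ∨ (d * t) % 16 = 12))))) :
    ∃ n0 : ℕ, ∀ n : ℕ, n0 ≤ n → ∃ p p' : ℕ, p ≠ p' ∧ p ∈ Prim (V P Q) n ∧ p' ∈ Prim (V P Q) n := by
  have he' : α = η ^ k * β ∨ α = -(η ^ k * β) := by
    rcases he with h | h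
    · exact h.1
    · exact h.2.2.2.2.imp And.left And.left
  obtain ⟨n0, hn0⟩ := core2 hnd hr2 huw hred hY hY2 hS hd ht hk hct hab hη hs hp he'
  refine ⟨2 * n0 + 1, ?_⟩
  intro n hn
  suffices h : ∃ p p' : ℕ, p ≠ p' ∧ p ∈ Prim (U P Q) (2 * n) ∧ p' ∈ Prim (U P Q) (2 * n) by
    obtain ⟨p, p', h1, h2, h3⟩ := h
    exact ⟨p, p', h1, hpv P Q n (by omega) h2, hpv P Q n (by omega) h3⟩
  rcases he with ⟨he, hdk, htk⟩ | ⟨hd2, hk2, hdk, htk, he⟩
  · rcases he with he | he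
    · obtain ⟨p, p', hpp, hpp', hne, h1, _⟩ := hn0 (2 * n) (by omega) (condU hd hdk htk)
      obtain ⟨h2, h3⟩ := h1 he
      exact ⟨p, p', hne, prim_plus hpp (by omega) h2, prim_plus hpp' (by omega) h3⟩
    · obtain ⟨n', hr, hge⟩ := exists_rel (n0 := n0) (n := 2 * n) (by omega)
      obtain ⟨p, p', hpp, hpp', hne, _, h1⟩ := hn0 n' hge (condU hd hdk htk)
      obtain ⟨h2, h3⟩ := h1 he
      exact ⟨p, p', hne, prim_minus hpp (by omega) hr h2, prim_minus hpp' (by omega) hr h3⟩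
  · rcases he with ⟨he, hc⟩ | ⟨he, hc⟩
    · obtain ⟨p, p', hpp, hpp', hne, h1, _⟩ := hn0 (2 * n) (by omega)
        (fun _ => condVp hd hd2 hk2 hdk htk hc)
      obtain ⟨h2, h3⟩ := h1 he
      exact ⟨p, p', hne, prim_plus hpp (by omega) h2, prim_plus hpp' (by omega) h3⟩
    · obtain ⟨n', hr, hge, hpar⟩ : ∃ n' : ℕ, Rel (2 * n) n' ∧ n0 ≤ n' ∧ (n' % 2 = 1 ∨ n' % 4 = 0) := by
        by_cases h2 : n % 2 = 0
        · exact ⟨2 * n, Or.inl ⟨by omega, rfl⟩, by omega, Or.inr (by omega)⟩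
        · exact ⟨n, Or.inr (Or.inl ⟨by omega, rfl⟩), by omega, Or.inl (by omega)⟩
      obtain ⟨p, p', hpp, hpp', hne, _, h1⟩ := hn0 n' hge
        (fun hq => condVm hd hd2 hk2 hdk htk hc hpar hq)
      obtain ⟨h2, h3⟩ := h1 he
      exact ⟨p, p', hne, prim_minus hpp (by omega) hr h2, prim_minus hpp' (by omega) hr h3⟩

end PkFIN2
end Pool.Agent.Helper59.LUC
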