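import Pool.Agent.Helper59.LUC.All
import Pool.Agent.Helper59.LUC.Fin2
import Pool.Agent.Helper94.LUC.GS2
import Pool.Agent.Helper55.LUC.OR2
import Pool.Agent.Helper20.LUC.RT2
import Pool.Agent.Helper56.LUC.RN2
import Pool.Agent.Helper13.LUC.PB2
import Pool.Agent.Helper38.LUC.UB2
import Pool.Agent.Helper87.LUC.RK2B
import Pool.Agent.Helper33.LUC.Y2
import Pool.Agent.Helper42.LUC.R2B

set_option autoImplicit false

namespace Pool.Agent.Helper59.LUC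
namespace All2

theorem y2 : G_Y2 :=
  PkY2.thm PkGS2.thm PkOR2.thm PkRT2.thm PkRN2.thm PkPB2.thm PkUB2.thm PkRK2B.thm All.lb All.vb
    PkRK1.thm All.rk2 PkRK4.thm PkNT.thm

theorem r2b : G_R2B := PkR2B.thm All.xx

/-- Main theorem for `U`. -/
theorem mainU : ∀ (P Q : ℤ), InS P Q →
    ∀ (d k : ℕ) (a b : ℚ) (η α β : ℂ), Squarefree d → 0 < k → d ∣ k →
      (d % 4 = 3 ∨ 2 * d ∣ k ∨ ∃ (t : ℕ) (c : ℚ), Squarefree t ∧ t ∣ k ∧ c ^ 2 = t * (2 + 2 * a)) →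
      a ^ 2 + d * b ^ 2 = 1 → η = (a : ℂ) + (b : ℂ) * ((Real.sqrt d : ℝ) : ℂ) * Complex.I →
      α + β = P → α * β = Q → (α = η ^ k * β ∨ α = -(η ^ k * β)) →
      {n : ℕ | (Prim (U P Q) n).ncard ≤ 1}.Finite := by
  intro P Q hS d k a b η α β hd hk hdk hc hab hη hs hp he
  have hold : ((d % 4 = 3 ∧ d ∣ k) ∨ 2 * d ∣ k) → {n : ℕ | (Prim (U P Q) n).ncard ≤ 1}.Finite :=
    fun h => All.mainU P Q hS d k a b η α β hd hk h hab hη hs hp he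
  rcases hc with h | h | ⟨t, c, ht, htk, hct⟩
  · exact hold (Or.inl ⟨h, hdk⟩)
  · exact hold (Or.inr h)
  · exact PkFIN.fin_of (fun n hn => PkFIN.U_ne hS hs hp hn)
      (PkFIN2.finU2 PkND.thm r2b PkUW.thm PkRED.thm All.yy y2 hS hd ht hk hdk htk hct hab hη hs hp he)

/-- Main theorem for `V`. -/
theorem mainV : ∀ (P Q : ℤ), InS P Q →
    ∀ (d k : ℕ) (a b : ℚ) (η α β : ℂ), Squarefree d → 0 < k →
      a ^ 2 + d * b ^ 2 = 1 → η = (a : ℂ) + (b : ℂ) * ((Real.sqrt d : ℝ) : ℂ) * Complex.I →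
      α + β = P → α * β = Q → (α = η ^ k * β ∨ α = -(η ^ k * β)) →
      ((d ∣ k ∧ (d % 4 = 3 ∨ 2 * d ∣ k ∨
          ∃ (t : ℕ) (c : ℚ), Squarefree t ∧ t ∣ k ∧ c ^ 2 = t * (2 + 2 * a))) ∨
        (d ∣ k ∧ 2 ∣ k ∧ α = -(η ^ k * β)) ∨
        (d ∣ 2 * k ∧ d % 2 = 0 ∧ k % 2 = 1 ∧
          ∃ (t : ℕ) (c : ℚ), Squarefree t ∧ t ∣ 2 * k ∧ c ^ 2 = t * (2 + 2 * a) ∧
            ((α = η ^ k * β ∧ (t % 4 = 3 ∨ (d * t) % 16 = 4)) ∨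
              (α = -(η ^ k * β) ∧ (t % 4 = 1 ∨ (d * t) % 16 = 12))))) →
      {n : ℕ | (Prim (V P Q) n).ncard ≤ 1}.Finite := by
  intro P Q hS d k a b η α β hd hk hab hη hs hp he hc
  -- from `U` to `V`
  have hUV : (∃ n0 : ℕ, ∀ n : ℕ, n0 ≤ n → ∃ p p' : ℕ, p ≠ p' ∧ p ∈ Prim (U P Q) n ∧ p' ∈ Prim (U P Q) n) →
      {n : ℕ | (Prim (V P Q) n).ncard ≤ 1}.Finite := by
    rintro ⟨n0, hn0⟩
    refine PkFIN.fin_of (fun n hn => PkFIN.V_ne hS hs hp hn) ⟨n0 + 1, fun n hn => ?_⟩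
    obtain ⟨p, p', h1, h2, h3⟩ := hn0 (2 * n) (by omega)
    exact ⟨p, p', h1, PkPV.thm P Q n (by omega) h2, PkPV.thm P Q n (by omega) h3⟩
  rcases hc with ⟨hdk, h | h | ⟨t, c, ht, htk, hct⟩⟩ | ⟨hdk, h2k, he'⟩ | ⟨hdk, hd2, hk2, t, c, ht, htk, hct, hcase⟩
  · exact hUV (PkFIN.finU PkND.thm All.r2 PkUW.thm PkRED.thm hS hd hk (Or.inl ⟨h, hdk⟩) hab hη hs hp he)
  · exact hUV (PkFIN.finU PkND.thm All.r2 PkUW.thm PkRED.thm hS hd hk (Or.inr h) hab hη hs hp he)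
  · exact hUV (PkFIN2.finU2 PkND.thm r2b PkUW.thm PkRED.thm All.yy y2 hS hd ht hk hdk htk hct hab hη hs hp he)
  · exact All.mainV P Q hS d k a b η α β hd hk hab hη hs hp (Or.inr ⟨he', h2k, hdk⟩)
  · exact PkFIN.fin_of (fun n hn => PkFIN.V_ne hS hs hp hn)
      (PkFIN2.finV2 PkND.thm r2b PkUW.thm PkRED.thm PkPV.thm All.yy y2 hS hd ht hk hct hab hη hs hp
        (Or.inr ⟨hd2, hk2, hdk, htk, hcase⟩))

end All2
end Pool.Agent.Helper59.LUC
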