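import Mathlib

set_option autoImplicit false

open Polynomial

namespace Pool.Agent.Helper59.LUC

/-- Lucas sequence of the first kind. -/
def U (P Q : ℤ) : ℕ → ℤ
  | 0 => 0
  | 1 => 1
  | (n + 2) => P * U P Q (n + 1) - Q * U P Q n

/-- Lucas sequence of the second kind. -/
def V (P Q : ℤ) : ℕ → ℤ
  | 0 => 2
  | 1 => P
  | (n + 2) => P * V P Q (n + 1) - Q * V P Q n

/-- The primes with rank of appearance `n` in the sequence `W`. -/
def Prim (W : ℕ → ℤ) (n : ℕ) : Set ℕ :=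
  {p | p.Prime ∧ (p : ℤ) ∣ W n ∧ ∀ m : ℕ, 0 < m → m < n → ¬ (p : ℤ) ∣ W m}

/-- The set `S` of the problem. -/
def InS (P Q : ℤ) : Prop :=
  P ≠ 0 ∧ Q ≠ 0 ∧ IsCoprime P Q ∧ P ^ 2 - 4 * Q ≠ 0 ∧
    ∀ α β : ℂ, α + β = P → α * β = Q → ∀ n : ℕ, 0 < n → (α / β) ^ n ≠ 1

/-- `W_n = 2 M^n - V_n(T, M^2) = M^n |η^n - 1|^2`. -/
def W (T M : ℤ) (n : ℕ) : ℤ := 2 * M ^ n - V T (M ^ 2) n

/-- The standing hypotheses: `η` is a root of `M x^2 - T x + M`, non real, not a root of unity. -/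
structure Ctx (T M : ℤ) (η : ℂ) : Prop where
  hM : 2 ≤ M
  hTM : IsCoprime T M
  hlt : T ^ 2 < 4 * M ^ 2
  hη : (M : ℂ) * η ^ 2 - T * η + M = 0
  hru : ∀ n : ℕ, 0 < n → η ^ n ≠ 1

/-- `N_r = M^φ(r) |Φ_r(η)|^2` as a real number. -/
noncomputable def NR (M : ℤ) (η : ℂ) (r : ℕ) : ℝ :=
  (M : ℝ) ^ r.totient * ‖(cyclotomic r ℂ).eval η‖ ^ 2

section basic

variable {T M : ℤ} {η : ℂ}

lemma Ctx.ne_zero (h : Ctx T M η) : η ≠ 0 := by
  rintro rfl
  have h1 := h.hη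
  have h2 := h.hM
  simp at h1
  omega

lemma Ctx.Mpos (h : Ctx T M η) : 0 < M := by have := h.hM; omega

lemma Ctx.MR (h : Ctx T M η) : (0 : ℝ) < M := by exact_mod_cast h.Mpos

lemma Ctx.MC (h : Ctx T M η) : (M : ℂ) ≠ 0 := by
  have := h.Mpos
  exact_mod_cast this.ne'

/-- `η + η⁻¹ = T / M` -/
lemma Ctx.add_inv (h : Ctx T M η) : (M : ℂ) * (η + η⁻¹) = T := by
  have h0 := h.ne_zero
  have h1 := h.hη
  field_simp
  linear_combination h1

lemma Ctx.norm_eq (h : Ctx T M η) : ‖η‖ = 1 := by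
  have h0 := h.ne_zero
  have h1 := h.add_inv
  have hM := h.MR
  -- imaginary part of η + η⁻¹ is zero
  have him : (η + η⁻¹).im = 0 := by
    have h2 := congrArg Complex.im h1
    simp only [Complex.mul_im, Complex.intCast_re, Complex.intCast_im, zero_mul, add_zero] at h2
    exact (mul_eq_zero.mp h2).resolve_left hM.ne'
  have hns : Complex.normSq η ≠ 0 := by simpa using h0
  have h3 : η.im * (Complex.normSq η - 1) = 0 := by
    rw [Complex.add_im, Complex.inv_im] at him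
    field_simp at him
    linarith
  rcases mul_eq_zero.mp h3 with h4 | h4
  · exfalso
    have h5 : η = (η.re : ℂ) := by
      apply Complex.ext <;> simp [h4]
    have h6 := h.hη
    rw [h5] at h6
    have h7 : (M : ℝ) * η.re ^ 2 - T * η.re + M = 0 := by exact_mod_cast h6
    have h8 : ((T : ℝ)) ^ 2 < 4 * (M : ℝ) ^ 2 := by exact_mod_cast h.hlt
    nlinarith [sq_nonneg (2 * (M : ℝ) * η.re - T)]
  · have h5 : Complex.normSq η = 1 := by linarith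
    rw [Complex.norm_def, h5, Real.sqrt_one]

lemma Ctx.conj_eq (h : Ctx T M η) : (starRingEnd ℂ) η = η⁻¹ := by
  rw [Complex.inv_def, Complex.normSq_eq_norm_sq, h.norm_eq]
  simp

lemma Ctx.V_eq (h : Ctx T M η) (n : ℕ) :
    (V T (M ^ 2) n : ℂ) = (M : ℂ) ^ n * (η ^ n + (η⁻¹) ^ n) := by
  have h0 := h.ne_zero
  have h1 := h.add_inv
  induction n using Nat.twoStepInduction with
  | zero => simp [V]; norm_num
  | one => simp [V, ← h1]
  | more n ih1 ih2 =>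
    have e : V T (M ^ 2) (n + 2) = T * V T (M ^ 2) (n + 1) - M ^ 2 * V T (M ^ 2) n := rfl
    rw [e]
    push_cast
    rw [ih1, ih2, ← h1]
    have h2 : η * η⁻¹ = 1 := mul_inv_cancel₀ h0
    have h3 : η ^ (n + 1) * η⁻¹ = η ^ n := by
      rw [pow_succ, mul_assoc, h2, mul_one]
    have h4 : (η⁻¹) ^ (n + 1) * η = (η⁻¹) ^ n := by
      rw [pow_succ, mul_assoc, inv_mul_cancel₀ h0, mul_one]
    have h5 : η ^ (n + 2) = η ^ (n + 1) * η := pow_succ _ _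
    have h6 : (η⁻¹) ^ (n + 2) = (η⁻¹) ^ (n + 1) * η⁻¹ := pow_succ _ _
    rw [h5, h6]
    linear_combination ((M : ℂ) ^ (n + 2)) * h3 + (M : ℂ) ^ (n + 2) * h4

/-- `|η^n - 1|^2 = 2 - η^n - η^{-n}` for `|η| = 1` -/
lemma Ctx.normSq_sub (h : Ctx T M η) (z : ℂ) (hz : ‖z‖ = 1) :
    ((‖η - z‖ ^ 2 : ℝ) : ℂ) = 2 - η * z⁻¹ - η⁻¹ * z := by
  have hz0 : z ≠ 0 := by
    rintro rfl
    simp at hz
  have hzc : (starRingEnd ℂ) z = z⁻¹ := by
    rw [Complex.inv_def, Complex.normSq_eq_norm_sq, hz]; simp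
  rw [← Complex.normSq_eq_norm_sq, ← Complex.mul_conj, map_sub, h.conj_eq, hzc]
  have h1 : η * η⁻¹ = 1 := mul_inv_cancel₀ h.ne_zero
  have h2 : z * z⁻¹ = 1 := mul_inv_cancel₀ hz0
  linear_combination h1 + h2

lemma Ctx.norm_pow (h : Ctx T M η) (n : ℕ) : ‖η ^ n‖ = 1 := by
  rw [_root_.norm_pow, h.norm_eq, one_pow]

/-- `W_n = M^n |η^n - 1|^2` -/
lemma Ctx.W_eq (h : Ctx T M η) (n : ℕ) : (W T M n : ℝ) = (M : ℝ) ^ n * ‖η ^ n - 1‖ ^ 2 := by
  have hc : (((W T M n : ℝ)) : ℂ) = (((M : ℝ) ^ n * ‖η ^ n - 1‖ ^ 2 : ℝ) : ℂ) := by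
    have h1 : ((‖η ^ n - 1‖ ^ 2 : ℝ) : ℂ) = 2 - η ^ n - (η⁻¹) ^ n := by
      rw [← Complex.normSq_eq_norm_sq, ← Complex.mul_conj, map_sub, map_pow, h.conj_eq, map_one]
      have h2 : η ^ n * (η⁻¹) ^ n = 1 := by
        rw [← mul_pow, mul_inv_cancel₀ h.ne_zero, one_pow]
      linear_combination h2
    rw [Complex.ofReal_mul, h1]
    unfold W
    push_cast
    rw [h.V_eq]
    ring
  exact_mod_cast hc

lemma Ctx.W_pos (h : Ctx T M η) {n : ℕ} (hn : 0 < n) : 0 < W T M n := by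
  have h1 := h.W_eq n
  have h2 : 0 < ‖η ^ n - 1‖ := by
    rw [norm_pos_iff, sub_ne_zero]
    exact h.hru n hn
  have h3 : (0 : ℝ) < W T M n := by
    rw [h1]
    exact mul_pos (pow_pos h.MR n) (by positivity)
  exact_mod_cast h3

/-- trivial Liouville bound -/
lemma Ctx.liouville (h : Ctx T M η) {n : ℕ} (hn : 0 < n) :
    1 ≤ (M : ℝ) ^ n * ‖η ^ n - 1‖ ^ 2 := by
  rw [← h.W_eq n]
  exact_mod_cast h.W_pos hn

end basic

end Pool.Agent.Helper59.LUC
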