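import Pool.Agent.Helper59.LUC.Basic

set_option autoImplicit false

namespace Pool.Agent.Helper59.LUC

/-!
# Project LUC (MP_387004_nt): packets

Final theorem (two hand-ins, one for U, one for V): for (P,Q) in S with alpha / beta = ± eta^k, eta of norm
one in the imaginary quadratic field Q(sqrt(-d)), d ≡ 3 mod 4 and d ∣ k, or 2 d ∣ k, all but finitely many terms
have at least two primitive prime factors.

Each packet is a def G_X : Prop. A packet file proves theorem PkX.thm : G_X (or the implication given in the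
packet text) in the namespace Pool.Agent.Helper59.LUC, in the file Pool/Agent/HelperNN/LUC/X.lean, importing
Pool.Agent.Helper59.LUC.Goals. Conventions used in all the proofs below:
W_n = W T M n = 2 M^n - V_n(T, M^2) = M^n |eta^n - 1|^2, lam = M eta, lam' = M eta⁻¹ (the two roots of
x^2 - T x + M^2, so algebraic integers, and lam' = conj lam), nu(z) = M |eta - z|^2 = 2 M - z⁻¹ lam - z lam' for
|z| = 1 (Ctx.normSq_sub).
-/

/-! ## Part 1 : the lower bound for |eta^n - 1| (interpolation determinants) -/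

/-- **Packet LT1** (interpolation determinant, analytic bound; elementary, no complex analysis needed).
n = card ι. For |x_j| ≤ ρ, E ≥ 1, b_i ≥ 0:
|det (x_j^{a_i} e^{i b_i x_j})| ≤ n! E^{-n(n-1)/2} ∏_i (Eρ)^{a_i} e^{b_i E ρ}.

PROOF. Write f_i(x) = x^{a_i} e^{i b_i x} = Σ_{m ≥ 0} c_{i,m} x^m with c_{i,m} = 0 for m < a_i and
c_{i,m} = (i b_i)^{m - a_i} / (m - a_i)! for m ≥ a_i. Then Σ_m |c_{i,m}| R^m = R^{a_i} e^{b_i R} for R ≥ 0.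
For K ≥ 0 let D_K = det ( Σ_{m<K} c_{i,m} x_j^m ). By multilinearity of det in the rows (Matrix.det as
MultilinearMap.map_sum / or expand ∏_i Σ_{m} by Finset.prod_univ_sum)
D_K = Σ_{μ : ι → Fin K} (∏_i c_{i,μ_i}) det (x_j^{μ_i}). If μ is not injective the last determinant has two equal rows
and vanishes. If μ is injective, Σ_i μ_i ≥ n(n-1)/2 (a sum of n distinct natural numbers: e.g.
Finset.sum_range_id_le_sum-type lemma, or sort), and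
|det (x_j^{μ_i})| ≤ n! ρ^{Σ μ_i} = n! (Eρ)^{Σ μ_i} E^{-Σ μ_i} ≤ n! (Eρ)^{Σ μ_i} E^{-n(n-1)/2}.
Hence |D_K| ≤ n! E^{-n(n-1)/2} Σ_μ ∏_i |c_{i,μ_i}| (Eρ)^{μ_i} ≤ n! E^{-n(n-1)/2} ∏_i Σ_{m<K} |c_{i,m}|(Eρ)^m
≤ n! E^{-n(n-1)/2} ∏_i (Eρ)^{a_i} e^{b_i E ρ}. Finally D_K → det (f_i(x_j)) as K → ∞ (the determinant is continuous
and each entry converges: NormedSpace.expSeries/Complex.hasSum_exp...), so the bound passes to the limit
(le_of_tendsto). -/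
def G_LT1 : Prop :=
  ∀ (ι : Type) [Fintype ι] [DecidableEq ι] (a : ι → ℕ) (b x : ι → ℝ) (ρ E : ℝ),
    (∀ i, 0 ≤ b i) → (∀ j, |x j| ≤ ρ) → 0 ≤ ρ → 1 ≤ E →
    ‖Matrix.det (Matrix.of fun i j : ι => ((x j : ℝ) : ℂ) ^ a i * Complex.exp (((b i * x j : ℝ) : ℂ) * Complex.I))‖ ≤
      ((Fintype.card ι).factorial : ℝ) *
        (E ^ (Fintype.card ι * (Fintype.card ι - 1) / 2))⁻¹ *
          ∏ i, ((E * ρ) ^ a i * Real.exp (b i * (E * ρ)))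

/-- **Packet LT2** (zero estimate).
PROOF. Suppose p ≠ 0. Let P_b(X) = Σ_a p_{a,b} X^a ∈ ℂ[X] and let β = {b : P_b ≠ 0}, m = card β,
1 ≤ m ≤ B. For u < m and b ∈ β put G_{u,b}(X) = P_b(X + j u) η^{u b}, an m × m matrix over ℂ[X] (index the rows
u by Fin m and the columns by β, or by Fin m through β.orderEmbOfFin). For s < S2, t < T0, u < m ≤ B we have
s + u < S2 + B, so the hypothesis at (s+u, t) reads Σ_b P_b(j s + n t + j u) η^{b u} η^{b s} = 0, i.e. the vector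
(η^{b s})_b, which is non zero, is killed by the matrix G(j s + n t). Hence det G vanishes at X = j s + n t
(Matrix.exists_mulVec_eq_zero_iff). The S2 * T0 numbers j s + n t (s < S2 ≤ n, t < T0) are distinct: if
j s + n t = j s' + n t' then n ∣ j (s - s'), so n ∣ s - s' as gcd(j,n) = 1, so s = s' as |s - s'| < n, so t = t'.
But deg det G ≤ Σ_{b∈β} deg P_b ≤ m (A - 1) ≤ B (A-1) < A B ≤ S2 T0 (here A, B ≥ 1 since p ≠ 0), so
det G = 0 in ℂ[X]. On the other hand the coefficient of X^{Σ_b deg P_b} in det G is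
det (c_b η^{u b})_{u,b} = (∏ c_b) · det Vandermonde(η^b : b ∈ β), c_b = leadingCoeff P_b ≠ 0 (each entry of
column b has degree ≤ deg P_b with coefficient c_b η^{u b} at X^{deg P_b}; expand the determinant over permutations),
and the η^b, b ∈ β, are distinct because η ≠ 0 and η is not a root of unity. So it is non zero: contradiction. -/
def G_LT2 : Prop :=
  ∀ (η : ℂ) (A B S2 T0 n j : ℕ), η ≠ 0 → (∀ k : ℕ, 0 < k → η ^ k ≠ 1) → 0 < n → Nat.Coprime j n → S2 ≤ n →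
    A * B ≤ S2 * T0 →
    ∀ p : Fin A → Fin B → ℂ,
      (∀ s t : ℕ, s < S2 + B → t < T0 →
        ∑ a : Fin A, ∑ b : Fin B, p a b * ((j * s + n * t : ℕ) : ℂ) ^ (a : ℕ) * η ^ ((b : ℕ) * s) = 0) →
      p = 0

/-- **Packet LT3** (linear algebra): if the rows of a matrix with finite column set are linearly independent, some choice
of columns gives a non zero determinant.
PROOF. Let V = ι → ℂ and c_k = (G i k)_i ∈ V the columns. The span of the columns is everything: otherwise there is a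
non zero linear functional v ↦ Σ_i p_i v_i vanishing on all the columns, i.e. Σ_i p_i G i k = 0 for all k,
contradiction. A spanning family contains a basis (exists_linearIndependent etc.), of cardinality card ι; enumerate it
by ι to get f : ι → κ with the columns c_{f j} linearly independent, so the determinant is non zero
(Matrix.linearIndependent_cols_iff_isUnit or Basis.det). Alternatively use Matrix.rank. -/
def G_LT3 : Prop :=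
  ∀ (ι κ : Type) [Fintype ι] [DecidableEq ι] [Fintype κ] (G : ι → κ → ℂ),
    (∀ p : ι → ℂ, (∀ c, ∑ i, p i * G i c = 0) → p = 0) →
    ∃ f : ι → κ, Matrix.det (Matrix.of fun i j : ι => G i (f j)) ≠ 0

/-- **Packet LT4** (arithmetic lower bound).
PROOF. Multiply row i by M^{b_i S}: the new entries are
X_j^{a_i} M^{b_i S} η^{b_i s_j} = X_j^{a_i} M^{b_i (S - s_j)} lam^{b_i s_j} with lam = M η, so they lie in the subring
R = {u + v lam : u v : ℤ} of ℂ (lam^2 = T lam - M^2: multiply hη by M). So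
D' = M^{S Σ b_i} · det is a non zero element u + v lam of R (Subring closed under det: Matrix.det_apply,
Subring.sum_mem, prod_mem; or use Matrix.det over the subring and RingHom.map_det). Now
|u + v lam|^2 = u^2 + u v (lam + conj lam) + v^2 |lam|^2 = u^2 + u v T + v^2 M^2 is an integer, and it is > 0, so ≥ 1.
(lam + conj lam = M (η + η⁻¹) = T by Ctx.add_inv, Ctx.conj_eq; |lam| = M by Ctx.norm_eq.) -/
def G_LT4 : Prop :=
  ∀ (T M : ℤ) (η : ℂ), Ctx T M η →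
    ∀ (ι : Type) [Fintype ι] [DecidableEq ι] (a b : ι → ℕ) (X : ι → ℤ) (s : ι → ℕ) (S : ℕ),
      (∀ j, s j ≤ S) →
      Matrix.det (Matrix.of fun i j : ι => ((X j : ℤ) : ℂ) ^ a i * η ^ (b i * s j)) ≠ 0 →
      1 ≤ ‖Matrix.det (Matrix.of fun i j : ι => ((X j : ℤ) : ℂ) ^ a i * η ^ (b i * s j))‖ *
        (M : ℝ) ^ (S * ∑ i, b i)

/-- **Packet LT5** (theorem PkLT5.thm (h1 : G_LT1) (h2 : G_LT2) (h3 : G_LT3) (h4 : G_LT4) : G_LT5), the core.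
Notation: N = A B, S = S2 + B, ρ = S + 2 T0 / θ, δ = n θ - j.
PROOF. Index set ι = Fin A × Fin B (card N), columns κ = Fin S × Fin T0. For a column c = (s,t) put X_c = j s + n t,
z_c = X_c / j = s + t n / j, so 0 ≤ z_c ≤ S + T0 n / j ≤ ρ because n θ ≤ 2 j. LT2 says that the rows of
G (a,b) (s,t) = X^a η^{b s} are independent, so LT3 gives f : ι → κ with Δ = det (X_{f j}^{a_i} η^{b_i s_j}) ≠ 0; LT4 gives
|Δ| ≥ M^{-S Σ b}. Divide row (a,b) by j^a: Δ' = det (z^{a} η^{b s}) satisfies |Δ'| = |Δ| / j^{Σ a} ≥ M^{-S Σ b} j^{-Σ a},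
where Σ a = Σ_{(a,b)} a ≤ N A / 2 and Σ b ≤ N B / 2 (sums over Fin A × Fin B).
Let F_{(a,b)}(z) = z^a e^{i (2π θ b) z}; at z = s + t n / j, θ n / j = 1 + δ / j, so
e^{2π i θ b z} = η^{b s} e^{2π i b t} e^{2 π i b t δ / j} = η^{b s} e^{2π i b t δ / j}: the entry g of Δ' and the entry
F of Δ'' = det (F_i(z_j)) satisfy g = F · u with |u| = 1, |u - 1| ≤ 2π b t |δ| / j ≤ ε := 2π B T0 |δ|. By the Leibniz
formula |Δ' - Δ''| ≤ N! · N ε · ρ^{Σ a} (each product: |∏ F| |∏ u - 1| ≤ ρ^{Σ a} N ε, since |∏ u - 1| ≤ Σ |u - 1| for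
unimodular u; ρ ≥ 1).
By LT1 with E = e = Real.exp 1, b_i = 2πθ b:
|Δ''| ≤ N! e^{-N(N-1)/2} (eρ)^{Σ a} e^{2πθ e ρ Σ b}, and θ ρ ≤ S + 2 T0 (θ < 1).
2π e < 18, 4π e < 35, log N! ≤ N log N, so
log |Δ''| ≤ N log N - N(N-1)/2 + (N A/2)(1 + log ρ) + (N B/2)(18 S + 35 T0),
and the hypothesis hineq multiplied by N/2 says exactly that this is
≤ - N/2·(2 ...), giving |Δ''| ≤ (1/2) M^{-S Σ b} j^{-Σ a} (use log j ≤ log n ≤ L, N ≥ 1, log 2 ≤ 1).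
Therefore (1/2) M^{-S Σ b} j^{-Σ a} ≤ |Δ'| - |Δ''| ≤ N! N ε ρ^{Σ a}, so δ ≠ 0 and
-log |δ| ≤ log 2 + S (N B/2) log M + (N A/2) L + N log N + log N + (N A/2) log ρ + log (2π B T0)
 ≤ N (A (L + log ρ) + B S log M) + N^2 + N + B + T0 + 3
(log x ≤ x, N log N ≤ N (N-1), log 2 ≤ 1, log(2π) ≤ 2, log B ≤ B, log T0 ≤ T0, log ρ ≥ 0, L ≥ 0). -/
def G_LT5 : Prop :=
  ∀ (T M : ℤ) (η : ℂ), Ctx T M η → ∀ θ : ℝ, 0 < θ → θ < 1 →
    η = Complex.exp (((2 * Real.pi * θ : ℝ) : ℂ) * Complex.I) →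
    ∀ A B S2 T0 n j : ℕ, 1 ≤ A → 1 ≤ B → 1 ≤ T0 → 1 ≤ j → j ≤ n → Nat.Coprime j n → S2 ≤ n →
    A * B ≤ S2 * T0 → (n : ℝ) * θ ≤ 2 * j →
    ∀ L ρ : ℝ, Real.log n ≤ L → ρ = (S2 : ℝ) + B + 2 * T0 / θ →
    2 * Real.log ((A : ℝ) * B) + 2 + A * (1 + Real.log ρ + L) +
      B * ((18 + Real.log M) * ((S2 : ℝ) + B) + 35 * T0) < (A : ℝ) * B - 1 →
    Real.exp (-((A : ℝ) * B * (A * (L + Real.log ρ) + B * ((S2 : ℝ) + B) * Real.log M) +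
      ((A : ℝ) * B) ^ 2 + A * B + B + T0 + 3)) ≤ |(n : ℝ) * θ - j|

/-- **Packet LT6** (theorem PkLT6.thm (h5 : G_LT5) : G_LT6): the final lower bound
|η^n - 1| ≥ exp(-C (log(n+2))^4).
PROOF. |η| = 1 and η ≠ 1, so η = e^{2π i θ} with 0 < θ < 1. Let c be a natural number with c ≥ 35 + log M,
σ = 32 c + 8, α = 4 c (σ + 4) (naturals); note 8 α = 32 c σ + 128 c ≤ σ^2 = 32 c σ + 8 σ.
For n large let ℓ = ⌈log n⌉₊ (so log n ≤ ℓ ≤ log n + 1), L = ℓ, and use LT5 with A = α ℓ, B = 8 ℓ,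
S2 = T0 = σ ℓ, j = round(n θ). We get ρ = κ₀ ℓ with κ₀ = σ + 8 + 2σ/θ. Check of the hypotheses for n large:
A B = 8 α ℓ^2 ≤ σ^2 ℓ^2 = S2 T0; S2 = σ ℓ ≤ n; |nθ - j| ≤ 1/2, nθ ≥ 1 so j ≥ nθ - 1/2 ≥ nθ/2 > 0, j ≤ nθ + 1/2 ≤ n.
The main inequality: A ℓ = α ℓ^2,
B((18 + log M)(S2+B) + 35 T0) ≤ 8ℓ · c((σ+8)ℓ + σℓ) = 16 c (σ+4) ℓ^2 = 4 α ℓ^2, A B - 1 = 8αℓ^2 - 1, so it is implied by
2 log(8αℓ^2) + 3 + αℓ(1 + log(κ₀ℓ)) < 3αℓ^2, true for ℓ ≥ ℓ₀(α, κ₀).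
The exponent in the conclusion of LT5 is at most C₁ ℓ^4 (N = 8αℓ^2, A(L + log ρ) ≤ αℓ(ℓ + κ₀ℓ), B S log M = 8(σ+8) log M ℓ^2).
So: (*) there are n₁, C₂ such that for all n ≥ n₁ and all j with gcd(j,n) = 1, |nθ - j| ≤ 1/2 we have
|nθ - j| ≥ exp(-C₂ (log(n+2))^4) (ℓ ≤ log n + 1 ≤ 2 log(n+2)).
General n ≥ 1, j an integer nearest to nθ: let g = gcd(n,j), n = g n₀, j = g j₀, then |nθ - j| = g |n₀θ - j₀| ≥ |n₀θ - j₀|,
and |n₀θ - j₀| ≤ 1/2. If n₀ ≥ n₁ use (*) for n₀ and n₀ ≤ n. If 1 ≤ n₀ < n₁: |n₀θ - j₀| > 0 (else η^{n₀} = 1) and it is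
bounded below by the minimum over n₀ < n₁ of the distance of n₀θ to the nearest integer, a positive constant
e^{-C₃}; and (log(n+2))^4 ≥ (log 2)^4 · ... ≥ 1 for n ≥ 1 (log 3 > 1). Finally
|η^n - 1| = 2 |sin(π(nθ - j))| ≥ 4 |nθ - j| since |nθ - j| ≤ 1/2 (Real.mul_le_sin-type bound sin x ≥ 2x/π on
[0, π/2], Complex.norm_exp_I_mul_ofReal_sub_one). -/
def G_LT6 : Prop :=
  ∀ (T M : ℤ) (η : ℂ), Ctx T M η → ∃ C : ℝ, 0 < C ∧ ∀ n : ℕ, 1 ≤ n →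
    Real.exp (-(C * (Real.log ((n : ℝ) + 2)) ^ 4)) ≤ ‖η ^ n - 1‖

/-- **Packet NT** (elementary): 2^{ω(r)} r^{3/4} ≤ C φ(r).
PROOF. For a prime power q = p^a, a ≥ 1: φ(q) / (2 q^{3/4}) = p^{a/4} (1 - 1/p) / 2 ≥ p^{1/4}(1 - 1/p)/2 =: c_p, and
c_p ≥ 1 for p ≥ 23 (already for p ≥ 23: p^{1/4} ≥ 2.18, 2p/(p-1) ≤ 2.1), c_p > 0 always. So by multiplicativity
φ(r) / (2^{ω(r)} r^{3/4}) ≥ ∏_{p ∣ r, p < 23} c_p ≥ ∏_{p < 23} min(1, c_p) =: 1/C. (Any convenient way is fine, for instance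
induction with Nat.recOnPosPrimePosCoprime, carrying the statement
2^{ω(r)} r^{3/4} ≤ φ(r) ∏_{p ∣ r} max 1 (1/c_p).) -/
def G_NT : Prop :=
  ∃ C : ℝ, 0 < C ∧ ∀ r : ℕ, 1 ≤ r →
    (2 : ℝ) ^ (r.primeFactors.card) * (r : ℝ) ^ ((3 : ℝ) / 4) ≤ C * (r.totient : ℝ)

/-! ## Part 2 : integers N_r and ranks -/

/-- N r = M^φ(r) |Φ_r(η)|^2 as natural numbers, with ∏_{d ∣ r} N d = W_r. -/
structure NN (T M : ℤ) (η : ℂ) (N : ℕ → ℕ) : Prop where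
  eq : ∀ r : ℕ, 1 ≤ r → (N r : ℝ) = NR M η r
  prod : ∀ r : ℕ, 1 ≤ r → (∏ d ∈ r.divisors, (N d : ℤ)) = W T M r

/-- **Packet ND**: the natural numbers N_r exist.
PROOF. In ℝ: ∏_{d ∣ r} NR d = M^{Σ φ(d)} |∏_{d∣r} Φ_d(η)|^2 = M^r |η^r - 1|^2 = W_r (Nat.sum_totient,
Polynomial.prod_cyclotomic_eq_X_pow_sub_one, Ctx.W_eq), and NR r > 0 since η is not a root of unity (Ctx.hru). By strong
induction every NR r (r ≥ 1) is rational: NR r = W_r / ∏_{d ∣ r, d ≠ r} NR d. Moreover NR r is an algebraic integer: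
Φ_r(η) = ∏_{z primitive} (η - z) (Polynomial.cyclotomic_eq_prod_X_sub_primitiveRoots, card = φ(r)), so
NR r = ∏_z M |η - z|^2 = ∏_z (2M - z⁻¹ lam - z lam') by Ctx.normSq_sub, where z, z⁻¹ are roots of unity and lam = M η,
lam' = M η⁻¹ are roots of the monic polynomial x^2 - T x + M^2 (Ctx.hη, Ctx.add_inv), all algebraic integers. A rational
algebraic integer is an integer (IsIntegrallyClosed, IsInteger_of_is_root_of_monic, or IsIntegral.exists_int...), and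
positive, so a natural number. Define N r accordingly (N 0 = 0), e.g. N r = ⌊NR M η r⌋₊, or by choice. The product formula is the
first line, cast to ℤ. -/
def G_ND : Prop := ∀ (T M : ℤ) (η : ℂ), Ctx T M η → ∃ N : ℕ → ℕ, NN T M η N

/-- **Packet WC** (composition): W T M (a b) = W (V_a(T,M^2)) (M^a) b.
PROOF. V_{ab}(T, Q) = V_b(V_a(T,Q), Q^a) for all integers (Q = M^2, (M^2)^a = (M^a)^2). This follows by induction on b
from V_{a(b+2)} = V_a V_{a(b+1)} - Q^a V_{ab}, which is the case m = a(b+1) of V_{m+a} = V_a V_m - Q^a V_{m-a} (m ≥ a), i.e.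
V_{m+2a} + Q^a V_m = V_a V_{m+a}, proved by (two step) induction on m or on a; or pass to a commutative ring with roots
x, y, x + y = T, x y = Q, where V_n = x^n + y^n (e.g. over ℂ or AdjoinRoot). -/
def G_WC : Prop := ∀ (T M : ℤ) (a b : ℕ), W T M (a * b) = W (V T (M ^ 2) a) (M ^ a) b

/-- **Packet WG**: W T μ m = (2μ - T) G with G ≡ m^2 μ^{m-1} mod (2μ - T).
PROOF. Let y = 2μ - T. Define G_0 = 0, G_1 = 1, G_{m+2} = 2μ G_{m+1} - μ^2 G_m + 2 μ^{m+1} - y G_{m+1}. By two step induction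
V_m(T, μ^2) = 2 μ^m - y G_m (use V_{m+2} = T V_{m+1} - μ^2 V_m, T = 2μ - y) and y ∣ G_m - m^2 μ^{m-1}
(2μ (m+1)^2 μ^m - μ^2 m^2 μ^{m-1} + 2 μ^{m+1} = (m+2)^2 μ^{m+1}, careful with m = 0 and truncated subtraction). -/
def G_WG : Prop := ∀ (T μ : ℤ) (m : ℕ), ∃ G : ℤ, W T μ m = (2 * μ - T) * G ∧
  (2 * μ - T) ∣ G - (m : ℤ) ^ 2 * μ ^ (m - 1)

/-- **Packet WP**: for a prime p ≥ 5 with p ∣ 2μ - T, p ∤ μ, the quotient W T μ p / (2μ - T) is not divisible by p^3.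
PROOF. Let y = 2μ - T, h = (p-1)/2 ≥ 2. Identity in integers:
4^{p-1} W T μ p = y E^2, E = Σ_{j=0}^{h} C(p, 2j+1) (4μ - y)^{h-j} (-y)^j
(with μ = 1, y = 4 sin^2 φ, this is sin(pφ)/sin φ = Σ_j (-1)^j C(p,2j+1) cos^{p-1-2j}φ sin^{2j}φ, W = 4 sin^2(pφ).) Algebraic
proof: work in a commutative ring (e.g. ℂ) with A, B such that A^2 = 4μ - y, B^2 = -y; put x = ((A+B)/2)^2,
x' = ((A-B)/2)^2; then x + x' = (A^2+B^2)/2 = 2μ - y = T, x x' = ((A^2-B^2)/4)^2 = μ^2,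
2 μ^p - x^p - x'^p = -(((A+B)/2)^p - ((A-B)/2)^p)^2 (as ((A+B)/2)((A-B)/2) = μ), and
(A+B)^p - (A-B)^p = 2 B Σ_j C(p,2j+1) A^{p-1-2j} B^{2j} = 2 B E, so W = -(2 B E / 2^p)^2 = y E^2 / 4^{p-1}.
Modulo p^2: for 1 ≤ j ≤ h-1 the term is divisible by p · y, for j = h it is (-y)^h, divisible by p^2 as h ≥ 2; so
E ≡ p (4μ - y)^h ≡ p (4μ)^h mod p^2, hence p ∥ E. If W T μ p = y G and y ≠ 0 then 4^{p-1} G = E^2 has p-adic
valuation exactly 2, so p^3 ∤ G. If y = 0 then W T μ p = 0 and any G, e.g. G = 1, works. (The existence of G with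
W = y G also follows from 4^{p-1} being prime to ... or from the recurrence in packet WG; e.g. prove the same by defining
E'_0 = 1, E'_1 = 3μ - y, E'_{i+1} = (2μ - y) E'_i - μ^2 E'_{i-1} and W T μ (2i+1) = y (E'_i)^2.) -/
def G_WP : Prop := ∀ (T μ : ℤ) (p : ℕ), p.Prime → 5 ≤ p → (p : ℤ) ∣ 2 * μ - T → ¬ (p : ℤ) ∣ μ →
  ∃ G : ℤ, W T μ p = (2 * μ - T) * G ∧ ¬ (p : ℤ) ^ 3 ∣ G

/-- **Packet RK1** (rank of appearance).
PROOF. Let F = AlgebraicClosure (ZMod p) and x ∈ F a root of X^2 - T X + M^2, x' = T - x, so x x' = M^2 ≠ 0,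
V_n(T, M^2) = x^n + x'^n in F (two step induction), x^n W_n = 2 M^n x^n - x^{2n} - M^{2n} = -(x^n - M^n)^2. So p ∣ W_n iff
x^n = M^n iff (x/M)^n = 1. The element x/M ≠ 0 of F has finite order o (it is algebraic over a finite field, so
lies in a finite subfield), and o is prime to p (if o = p o' then ((x/M)^{o'})^p = 1 gives (x/M)^{o'} = 1).
So p ∣ W_n ↔ o ∣ n. -/
def G_RK1 : Prop := ∀ (T M : ℤ) (p : ℕ), p.Prime → ¬ (p : ℤ) ∣ M →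
  ∃ o : ℕ, 0 < o ∧ ¬ p ∣ o ∧ ∀ n : ℕ, ((p : ℤ) ∣ W T M n ↔ o ∣ n)

/-- **Packet RK2** (theorem PkRK2.thm (h1 : G_RK1) (hc : G_WC) (hg : G_WG) : G_RK2).
PROOF. Let o be the rank of p from RK1. N r ∣ W_r (product formula NN.prod, r ∈ r.divisors), so p ∣ W_r, o ∣ r.
Suppose o ≠ r; take a prime q ∣ r / o, r = q m, o ∣ m, so p ∣ W_m. By WC and WG (applied to V_m(T,M^2), μ = M^m,
2 μ - V_m = W_m): W_r = W_m G with W_m ∣ G - q^2 μ^{q-1}. Since m.divisors ⊂ r.divisors and r ∉ m.divisors,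
W_r = W_m · ∏_{d ∣ r, d ∤ m} N_d with N_r one of the factors, and W_m ≠ 0 (Ctx.W_pos), so N_r ∣ G. Hence
p ∣ G and p ∣ W_m ∣ G - q^2 μ^{q-1}, so p ∣ q^2 M^{m(q-1)}, p ∣ q (p ∤ M), p = q ∣ r, contradiction. -/
def G_RK2 : Prop := ∀ (T M : ℤ) (η : ℂ), Ctx T M η → ∀ N : ℕ → ℕ, NN T M η N →
  ∀ (r p : ℕ), 1 ≤ r → p.Prime → ¬ p ∣ r → ¬ (p : ℤ) ∣ M → p ∣ N r → ∀ n : ℕ, ((p : ℤ) ∣ W T M n ↔ r ∣ n)

/-- **Packet RK3** (theorem PkRK3.thm (h1 : G_RK1) (hc : G_WC) (hg : G_WG) : G_RK3).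
PROOF. As in RK2: o the rank of p, o ∣ r, and if a prime q divides r / o, the argument of RK2 gives
p ∣ q^2 M^{...}, so q = p. Hence r = o p^t, and p ∤ o by RK1, p ∣ r, so t ≥ 1. Take e = o. -/
def G_RK3 : Prop := ∀ (T M : ℤ) (η : ℂ), Ctx T M η → ∀ N : ℕ → ℕ, NN T M η N →
  ∀ (r p : ℕ), 1 ≤ r → p.Prime → p ∣ r → ¬ (p : ℤ) ∣ M → p ∣ N r →
    ∃ e t : ℕ, 0 < e ∧ 0 < t ∧ r = e * p ^ t ∧ ¬ p ∣ e ∧ ∀ n : ℕ, ((p : ℤ) ∣ W T M n ↔ e ∣ n)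

/-- **Packet RK4**: primes dividing M divide no W_n, N_n, n ≥ 1.
PROOF. V_n(T, M^2) ≡ T^n mod p for n ≥ 1 if p ∣ M (induction), so W_n ≡ - T^n mod p, and p ∤ T since T, M are coprime
(Ctx.hTM). And N_n ∣ W_n by NN.prod. -/
def G_RK4 : Prop := ∀ (T M : ℤ) (η : ℂ), Ctx T M η → ∀ N : ℕ → ℕ, NN T M η N →
  ∀ (n p : ℕ), 1 ≤ n → p.Prime → (p : ℤ) ∣ M → ¬ (p : ℤ) ∣ W T M n ∧ ¬ p ∣ N n

/-- **Packet RK5** (the two halves of N_r have no common prime).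
PROOF. Let R = integralClosure ℤ ℂ and 𝔓 a maximal ideal of R containing p (p is not a unit of R: 1/p is not
integral; Ideal.exists_le_maximal). 𝔓 ∩ ℤ = p ℤ. With lam = M η, lam' = M η⁻¹ = M^2/lam in R, for a root of unity z:
ν(z) = M |η - z|^2 = 2M - z⁻¹ lam - z lam' (Ctx.normSq_sub) and z lam ν(z) = -(lam - z M)^2. If p ∣ NA then
∏_{z∈O} ν(z) ∈ 𝔓, so ν(z₁) ∈ 𝔓 for some z₁ ∈ O, so lam ≡ z₁ M mod 𝔓. If p ∣ NB too, lam ≡ z₂⁻¹ M mod 𝔓 for some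
z₂ ∈ O. So (z₁ - z₂⁻¹) M ∈ 𝔓, and M ∉ 𝔓, so z₁ - z₂⁻¹ ∈ 𝔓. If z₁ ≠ z₂⁻¹ then w = z₁ z₂ ≠ 1 is an r-th root of unity and
1 - w ∈ 𝔓 divides r (∏_{w ≠ 1, w^r = 1} (1 - w) = r, or: 1 + w + ... + w^{r-1} = 0 and w ≡ 1 give r ≡ 0 mod 𝔓), so
r ∈ 𝔓, p ∣ r, contradiction. So z₁ = z₂⁻¹; but z₁ ∈ O and z₂⁻¹ ∉ O by hypothesis, contradiction. -/
def G_RK5 : Prop := ∀ (T M : ℤ) (η : ℂ), Ctx T M η →
  ∀ (r p : ℕ), 1 ≤ r → p.Prime → ¬ p ∣ r → ¬ (p : ℤ) ∣ M →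
  ∀ (O : Finset ℂ), (∀ z ∈ O, IsPrimitiveRoot z r) → (∀ z ∈ O, z⁻¹ ∉ O) →
  ∀ NA NB : ℕ, (NA : ℝ) = ∏ z ∈ O, ((M : ℝ) * ‖η - z‖ ^ 2) → (NB : ℝ) = ∏ z ∈ O, ((M : ℝ) * ‖η - z⁻¹‖ ^ 2) →
    ¬ (p ∣ NA ∧ p ∣ NB)

/-- **Packet VB** (theorem PkVB.thm (h3 : G_RK3) (h4 : G_RK4) (hc : G_WC) (hg : G_WG) (hp : G_WP) (h1 : G_RK1) : G_VB).
PROOF. Let p ∣ r be a prime with p^3 ∣ N_r. Then p ∤ M (RK4), and RK3 gives r = e p^t, t ≥ 1, e the rank of p. Let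
m = r/p = e p^{t-1}, p ∣ W_m, μ = M^m, y = W_m = 2μ - V_m(T,M^2). By WC W_r = W (V_m) μ p. As in RK2, for every G
with W_r = W_m G we have N_r ∣ G (W_m ≠ 0). If p ≥ 5: WP gives G with p^3 ∤ G: contradiction. (For all r.)
If p = 3: W (V_m) μ 3 = y (3μ - y)^2 (direct computation); if t ≥ 2 then m = 3 m' with 3 ∣ W_{m'} and
W_m = W_{m'} (3 M^{m'} - W_{m'})^2 is divisible by 27, so (3μ - y)^2 ≡ 9 μ^2 mod 27, not divisible by 27. If p = 2: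
W (V_m) μ 2 = y (4μ - y); if t ≥ 3, 2 ∣ W_e, W_{2e} = W_e(4M^e - W_e) is divisible by 4, W_{4e} by 16, so (all the later
ones) 16 ∣ W_m (e p^{2} ∣ m, and W_{4e} ∣ W_m by WG/WC), 4μ - y ≡ 4μ mod 8 is not divisible by 8 (μ odd).
So the exceptions have p ∈ {2,3} and r = e p^t with e the rank of p (a fixed number, if p ∤ M) and t ≤ 2: finitely many
r; take r₀ larger than 9 e_2, 9 e_3 where e_p is the rank of p given by RK1 (and the e of RK3 equals e_p). -/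
def G_VB : Prop := ∀ (T M : ℤ) (η : ℂ), Ctx T M η → ∀ N : ℕ → ℕ, NN T M η N →
  ∃ r0 : ℕ, ∀ r : ℕ, r0 ≤ r → ∀ p : ℕ, p.Prime → p ∣ r → ¬ p ^ 3 ∣ N r

/-- **Packet LB** (theorem PkLB.thm (h6 : G_LT6) (hn : G_NT) : G_LB): N_r is large.
PROOF. log W_r = Σ_{d ∣ r} log N_d (NN.prod, all positive: Ctx.W_pos), so by Moebius inversion
(ArithmeticFunction.sum_eq_iff_sum_mul_moebius_eq) and W_d = M^d |η^d - 1|^2, Σ_{d ∣ r} μ(r/d) d = φ(r):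
log N_r = φ(r) log M + 2 Σ_{d ∣ r} μ(r/d) log |η^d - 1|. (Or apply the inversion directly to log NR.) Now
-C (log(r+2))^4 ≤ log|η^d - 1| ≤ log 2 for 1 ≤ d ≤ r by LT6, and the number of d ∣ r with μ(r/d) ≠ 0 is 2^{ω(r)}
(squarefree divisors: Nat.sum_divisors_filter_squarefree, or Σ_{d∣r} |μ(d)| = 2^{ω(r)}; an upper bound suffices), so
log N_r ≥ φ(r) log M - 2 · 2^{ω(r)} (C+1) (log(r+2))^4, (log 2 ≤ (log 3)^4), and by NT
2^{ω(r)} (log(r+2))^4 ≤ C' φ(r) (log(r+2))^4 / r^{3/4} = o(φ(r)). -/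
def G_LB : Prop := ∀ (T M : ℤ) (η : ℂ), Ctx T M η → ∀ N : ℕ → ℕ, NN T M η N →
  ∀ ε : ℝ, 0 < ε → ∃ r0 : ℕ, ∀ r : ℕ, r0 ≤ r →
    Real.exp ((r.totient : ℝ) * (Real.log M - ε)) ≤ (N r : ℝ)

/-- **Packet X** (theorem PkX.thm (hlb : G_LB) (hvb : G_VB) (h4 : G_RK4) (h2 : G_RK2) (hn : G_NT) : G_X): for all large r
there is a prime of exact rank r.
PROOF. By LB with ε = (log 2)/2, M ≥ 2, and NT (φ(r) ≥ r^{3/4}/C), N_r ≥ exp(φ(r) (log 2)/2) > r^2 for r large. Suppose all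
primes dividing N_r divide r. By VB their exponents in N_r are at most 2, so N_r ∣ r^2 (Nat.factorization), N_r ≤ r^2,
contradiction. So some prime p ∣ N_r does not divide r; p ∤ M by RK4; conclude by RK2. -/
def G_X : Prop := ∀ (T M : ℤ) (η : ℂ), Ctx T M η → ∀ N : ℕ → ℕ, NN T M η N →
  ∃ r0 : ℕ, ∀ r : ℕ, r0 ≤ r → ∃ p : ℕ, p.Prime ∧ ¬ (p : ℤ) ∣ M ∧ ∀ n : ℕ, ((p : ℤ) ∣ W T M n ↔ r ∣ n)

/-! ## Part 3 : the splitting over the imaginary quadratic field -/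

/-- **Packet GS** (square roots in cyclotomic fields; Gauss sums).
PROOF. K = ℚ(ζ), ζ a primitive r-th root of unity. (a) For an odd prime p ∣ r, ξ = ζ^{r/p} is a primitive p-th root of
unity and the quadratic Gauss sum g_p = Σ_a (a/p) ξ^a ∈ K satisfies g_p^2 = (-1)^{(p-1)/2} p =: p* (Mathlib: gaussSum_sq,
quadraticChar, AddChar.zmodChar / ZMod.toCircle...; the prime field statement is
Mathlib.NumberTheory.LegendreSymbol.QuadraticChar.GaussSum; any proof will do). (b) If 4 ∣ r, i' = ζ^{r/4} has i'^2 = -1.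
(c) If 8 ∣ r, ξ = ζ^{r/8}, (ξ + ξ⁻¹)^2 = 2 since ξ^4 = -1. Now d is squarefree. If d is odd, ∏_{p ∣ d} p* = d* = ± d with
d* ≡ 1 mod 4, and ∏ g_p is a square root of d* in K. If d ≡ 3 mod 4, d* = -d: done when d ∣ r, in both cases of the
hypothesis. If d ≡ 1 mod 4, d* = d and 4 ∣ r: take i' ∏ g_p. If d = 2 d', d' odd, then 8 ∣ 4 d ∣ r, (ξ + ξ⁻¹)∏_{p ∣ d'} g_p has
square 2 d'* = ± d; multiply by i' if the sign is +. -/
def G_GS : Prop := ∀ (d r : ℕ), Squarefree d → 1 ≤ r → ((d % 4 = 3 ∧ d ∣ r) ∨ 4 * d ∣ r) →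
  ∀ ζ : ℂ, IsPrimitiveRoot ζ r → ∃ s : ℂ, s ^ 2 = -(d : ℂ) ∧ s ∈ IntermediateField.adjoin ℚ {ζ}

/-- The set O of packet SP: a half system of primitive r-th roots of unity. -/
structure Half (r : ℕ) (O : Finset ℂ) : Prop where
  prim : ∀ z ∈ O, IsPrimitiveRoot z r
  half : ∀ z : ℂ, IsPrimitiveRoot z r → (z ∈ O ↔ z⁻¹ ∉ O)
  orb : ∀ a : ℕ, a.Coprime r → (∀ z ∈ O, z ^ a ∈ O) ∨ (∀ z ∈ O, (z ^ a)⁻¹ ∈ O)

/-- **Packet SP** (splitting).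
PROOF. Let ζ be a primitive r-th root of unity, L = ℚ(ζ), s ∈ L, s^2 = -d, s ≠ 0; L/ℚ is Galois and for a coprime to r there is a
unique σ_a ∈ Gal(L/ℚ) with σ_a ζ = ζ^a; σ_a s = ± s. Put O = {ζ^a : 1 ≤ a ≤ r, gcd(a,r) = 1, σ_a s = s}. (Avoiding Gal(L/ℚ):
s = f(ζ) for some f ∈ ℚ[X]; put O = {z primitive r-th root : f(z) = s}. Since Φ_r is irreducible over ℚ and f(ζ)^2 + d = 0,
f(z)^2 = -d for all primitive z, i.e. f(z) = ± s; for a coprime to r, Φ_r divides f(X^a) - f(X) or f(X^a) + f(X)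
according to f(ζ^a) = f(ζ) or - f(ζ), so f(z^a) = ± f(z) for all primitive z with a sign depending only on a. And
f(z⁻¹) = conj f(z) = conj(± s) = - f(z), since conj s = -s (s^2 = -d < 0).)
This gives prim, half (s ≠ 0), and orb ((z^a)⁻¹ ∈ O when the sign is -).
Rationality of ∏_{z∈O} M |η - z|^2 = ∏_{z ∈ O} (2M - z⁻¹ lam - z lam'): lam = M η is a root of x^2 - T x + M^2 and
T^2 - 4 M^2 = - d m^2 = (m s)^2, so lam = (T + ε m s)/2, lam' = (T - ε m s)/2 with ε = ± 1. For a primitive z put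
A(z) = ∏_{z' ∈ O(z)} (2M - z'⁻¹ lam(z) - z' lam'(z)) ... in Galois terms: the subgroup H = {σ_a : σ_a s = s} of index 2 fixes
lam, lam' and permutes O, so A = ∏_{z∈O} (2M - z⁻¹ lam - z lam') is in the fixed field of H, which is ℚ(s) (degree 2); A is
real, ℚ(s) ∩ ℝ = ℚ as s ∉ ℝ, so A ∈ ℚ. (Or directly: a τ ∉ H, e.g. complex conjugation τ, maps A to conj A = A, so A is
fixed by all of Gal(L/ℚ), so rational.) A is an algebraic integer, A ≥ 0, so a natural number NA. For NB: the set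
O⁻¹ in place of O, the same argument (O⁻¹ = {z : f(z) = -s} is stable under H too). -/
def G_SP : Prop := ∀ (T M : ℤ) (η : ℂ), Ctx T M η →
  ∀ (m : ℤ) (d : ℕ), m ≠ 0 → 1 ≤ d → 4 * M ^ 2 - T ^ 2 = (d : ℤ) * m ^ 2 →
  ∀ r : ℕ, 3 ≤ r → ∀ ζ s : ℂ, IsPrimitiveRoot ζ r → s ^ 2 = -(d : ℂ) → s ∈ IntermediateField.adjoin ℚ {ζ} →
  ∃ O : Finset ℂ, Half r O ∧ ∃ NA NB : ℕ, (NA : ℝ) = ∏ z ∈ O, ((M : ℝ) * ‖η - z‖ ^ 2) ∧
    (NB : ℝ) = ∏ z ∈ O, ((M : ℝ) * ‖η - z⁻¹‖ ^ 2)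

/-- **Packet PB** (Parseval).
PROOF. z ↦ z⁻¹ maps O bijectively onto the complement of O in the set of primitive r-th roots (Half.half), so 2 card O = φ(r).
For b ∈ ℕ let f(b) = Σ_{z∈O} z^b. Σ_{b<r} |f(b)|^2 = Σ_{z,w∈O} Σ_{b<r} (z w⁻¹)^b = r card O (orthogonality: z w⁻¹ is an r-th root of
unity, the inner sum is r if z = w, else 0). For a coprime to r, z ↦ z^a is injective on the r-th roots of unity and maps O
onto O or onto O⁻¹ (Half.orb, cardinalities), so f(a) = f(1) or conj f(1) (conj z = z⁻¹), |f(a)| = |f(1)|, and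
f(2a) = Σ_{z∈O} (z^a)^2 is f(2) or conj f(2), |f(2a)| = |f(2)|. So φ(r) |f(1)|^2 ≤ r card O = r φ(r)/2, |f(1)|^2 ≤ r. The residues 2a mod r,
a coprime to r, 1 ≤ a ≤ r, take at least φ(r)/2 distinct values (a ↦ 2a mod r is at most two to one), and f(b) depends only
on b mod r, so (φ(r)/2) |f(2)|^2 ≤ r card O = r φ(r)/2, |f(2)|^2 ≤ r. -/
def G_PB : Prop := ∀ r : ℕ, 3 ≤ r → ∀ O : Finset ℂ, Half r O →
  2 * O.card = r.totient ∧ ‖∑ z ∈ O, z‖ ^ 2 ≤ (r : ℝ) ∧ ‖∑ z ∈ O, z ^ 2‖ ^ 2 ≤ (r : ℝ)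

/-- **Packet UB** (upper bound for a sum of logarithms).
PROOF. log x ≤ (x-1) - (x-1)^2/4 for 0 < x ≤ 2: with y = x - 1 ∈ (-1, 1], the function y - y^2/4 - log(1+y) has derivative
(y/2)(1-y)/(1+y), so its minimum on (-1,1] is its value 0 at y = 0. For |η| = |z| = 1: |η - z|^2 = 2 - 2 Re(η conj z); put
c_z = Re(η conj z), so |η - z|^2 / 2 = 1 - c_z ∈ (0, 2] and log(|η-z|^2) ≤ log 2 - c_z - c_z^2/4, and
c_z^2 = 1/2 + Re((η conj z)^2)/2. Sum over O: Σ c_z = Re(η conj Σ z) ≥ -R, Σ c_z^2 ≥ card O/2 - R/2. So the sum is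
≤ card O log 2 + R - card O/8 + R/8 ≤ card O (log 2 - 1/8) + 2R. -/
def G_UB : Prop := ∀ (η : ℂ), ‖η‖ = 1 → ∀ (O : Finset ℂ) (R : ℝ), (∀ z ∈ O, ‖z‖ = 1 ∧ z ≠ η) →
  ‖∑ z ∈ O, z‖ ≤ R → ‖∑ z ∈ O, z ^ 2‖ ≤ R →
  ∑ z ∈ O, Real.log (‖η - z‖ ^ 2) ≤ (O.card : ℝ) * (Real.log 2 - 1 / 8) + 2 * R

/-- **Packet Y**
(theorem PkY.thm (hsp : G_SP) (hgs : G_GS) (hpb : G_PB) (hub : G_UB) (hlb : G_LB) (hvb : G_VB) (h2 : G_RK2) (h4 : G_RK4) (h5 : G_RK5) (hn : G_NT) : G_Y):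
two primes of exact rank r.
PROOF. Let r be large with the divisibility condition; ζ = e^{2πi/r}; GS gives s, SP gives O, NA, NB.
NA · NB = ∏_{z ∈ O} M|η-z|^2 · ∏_{z∈O} M|η - z⁻¹|^2 = ∏_{z primitive} M |η - z|^2 = N_r (Half.half: the primitive r-th roots are the
disjoint union of O and O⁻¹; NR, cyclotomic as a product over primitive roots, card = φ(r)). By PB and UB with R = √r,
log NA = card O log M + Σ_{z∈O} log|η-z|^2 ≤ (φ(r)/2)(log M + log 2 - 1/8) + 2√r, and the same for log NB (apply UB to O⁻¹,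
the image of O under z ↦ z⁻¹ = conj z, whose power sums are the conjugates). By LB with ε = 1/64,
log N_r ≥ φ(r)(log M - 1/64), so
log NA = log N_r - log NB ≥ φ(r)(log M/2 - log 2/2 + 1/16 - 1/64) - 2√r ≥ φ(r)/32 - 2√r > 2 log r for r large, since
M ≥ 2 and φ(r) ≥ r^{3/4}/C (NT). The same for NB. Since NA ∣ N_r, by VB each prime p ∣ r has exponent ≤ 2 in NA; so if all the primes
dividing NA divided r we would have NA ∣ r^2, NA ≤ r^2, contradiction. So there is a prime p ∣ NA with p ∤ r, and a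
prime p' ∣ NB with p' ∤ r. Both divide N_r, so they do not divide M (RK4) and have exact rank r (RK2). If p = p', RK5 gives a
contradiction. -/
def G_Y : Prop := ∀ (T M : ℤ) (η : ℂ), Ctx T M η → ∀ N : ℕ → ℕ, NN T M η N →
  ∀ (m : ℤ) (d : ℕ), m ≠ 0 → Squarefree d → 4 * M ^ 2 - T ^ 2 = (d : ℤ) * m ^ 2 →
  ∃ r0 : ℕ, ∀ r : ℕ, r0 ≤ r → ((d % 4 = 3 ∧ d ∣ r) ∨ 4 * d ∣ r) →
    ∃ p p' : ℕ, p.Prime ∧ p'.Prime ∧ p ≠ p' ∧ ¬ (p : ℤ) ∣ M ∧ ¬ (p' : ℤ) ∣ M ∧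
      (∀ n : ℕ, ((p : ℤ) ∣ W T M n ↔ r ∣ n)) ∧ (∀ n : ℕ, ((p' : ℤ) ∣ W T M n ↔ r ∣ n))

/-! ## Part 4 : translation to U and V -/

/-- **Packet R2** (theorem PkR2.thm (hx : G_X) (hy : G_Y) : G_R2): two primes of prescribed rank for η^k.
Here c is any natural number (a finite set of bad primes, those dividing c).
PROOF. Let r₁ be beyond the thresholds of X and Y and beyond all the ranks of the primes p ∣ c (for the primes p ∣ c for which there is an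
r with ∀ n, p ∣ W_n ↔ r ∣ n; this r is unique for p, since r ∣ r' and r' ∣ r; finitely many primes; so for r ≥ r₁ a prime with
exact rank r does not divide c). Let n' ≥ r₁, n' ≥ 1.
Case A: every prime factor of k divides n'. Then by hypothesis the divisibility condition holds for r = n' k: Y gives two distinct
primes p ∤ M of exact rank n' k; p ∣ W_{k m} ↔ n' k ∣ k m ↔ n' ∣ m.
Case B: some prime q ∣ k, q ∤ n'. Let d₀ ∣ k be the largest divisor of k composed of primes dividing n', so that k = d₀ k'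
with gcd(k', n') = 1 (e.g. k'  the largest divisor of k coprime to n', Nat.Coprime and gcd(k', d₀) = 1), q ∣ k'. Let
r₁' = n' d₀, r₂' = n' d₀ q. X gives primes p₁, p₂ ∤ M with exact ranks r₁' ≠ r₂', so p₁ ≠ p₂. And
n' d₀ ∣ k m = d₀ k' m ↔ n' ∣ k' m ↔ n' ∣ m; n' d₀ q ∣ d₀ k' m ↔ n' q ∣ k' m ↔ n' ∣ (k'/q) m ↔ n' ∣ m. -/
def G_R2 : Prop := ∀ (T M : ℤ) (η : ℂ), Ctx T M η → ∀ N : ℕ → ℕ, NN T M η N →
  ∀ (m : ℤ) (d k c : ℕ), m ≠ 0 → Squarefree d → 4 * M ^ 2 - T ^ 2 = (d : ℤ) * m ^ 2 → 0 < k → 0 < c →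
  ∃ n0 : ℕ, ∀ n' : ℕ, n0 ≤ n' →
    ((∀ q : ℕ, q.Prime → q ∣ k → q ∣ n') → ((d % 4 = 3 ∧ d ∣ n' * k) ∨ 4 * d ∣ n' * k)) →
    ∃ p p' : ℕ, p.Prime ∧ p'.Prime ∧ p ≠ p' ∧ ¬ p ∣ c ∧ ¬ p' ∣ c ∧ ¬ (p : ℤ) ∣ M ∧ ¬ (p' : ℤ) ∣ M ∧
      (∀ n : ℕ, ((p : ℤ) ∣ W T M (k * n) ↔ n' ∣ n)) ∧ (∀ n : ℕ, ((p' : ℤ) ∣ W T M (k * n) ↔ n' ∣ n))

/-- **Packet UW** (relation between U_n(P,Q) and W), for a prime p not dividing 2 M Q D, D = P^2 - 4Q.
PROOF. U_n = (α^n - β^n)/(α - β), so D U_n^2 = (α^n - β^n)^2 = α^{2n} + β^{2n} - 2 Q^n = Q^n (x^n + x^{-n} - 2) with x = α/β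
((α - β)^2 = D, α β = Q ≠ 0). (+) If α = η^k β: x^n + x^{-n} - 2 = η^{kn} + η^{-kn} - 2 = - W_{kn} / M^{kn} (Ctx.V_eq), so
M^{kn} D U_n^2 = - Q^n W_{kn} in ℤ, and p ∣ U_n ↔ p ∣ W_{kn}. (-) If α = - η^k β and n is even the same holds. If n is odd,
x^n + x^{-n} - 2 = -(η^{kn} + η^{-kn}) - 2 = -(4 M^{kn} - W_{kn})/M^{kn}, so p ∣ U_n ↔ p ∣ 4 M^{kn} - W_{kn}; since
W_{2j} = W_j (4 M^j - W_j) (from V_{2j} = V_j^2 - 2 M^{2j}, or Ctx.W_eq), p ∣ 4M^j - W_j iff p ∣ W_{2j} and p ∤ W_j (p ∤ 4 M^j). -/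
def G_UW : Prop := ∀ (T M : ℤ) (η : ℂ), Ctx T M η →
  ∀ (P Q : ℤ) (α β : ℂ) (k : ℕ), α + β = P → α * β = Q → Q ≠ 0 → P ^ 2 - 4 * Q ≠ 0 →
  ∀ p : ℕ, p.Prime → ¬ (p : ℤ) ∣ 2 * M * Q * (P ^ 2 - 4 * Q) →
    (α = η ^ k * β → ∀ n : ℕ, ((p : ℤ) ∣ U P Q n ↔ (p : ℤ) ∣ W T M (k * n))) ∧
    (α = -(η ^ k * β) → ∀ n : ℕ, ((p : ℤ) ∣ U P Q n ↔
      ((Even n ∧ (p : ℤ) ∣ W T M (k * n)) ∨ (Odd n ∧ (p : ℤ) ∣ W T M (k * (2 * n)) ∧ ¬ (p : ℤ) ∣ W T M (k * n)))))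

/-- **Packet PV**: primitive prime factors of U_{2n} are primitive prime factors of V_n.
PROOF. U_{2n} = U_n V_n (induction via the addition formula, or Binet over ℂ). If p ∈ Prim(U_{2n}), n ≥ 1: p ∣ U_n V_n, p ∤ U_n since
0 < n < 2n, so p ∣ V_n; for 0 < m < n, p ∣ V_m would give p ∣ U_{2m}, 0 < 2m < 2n, a contradiction. -/
def G_PV : Prop := ∀ (P Q : ℤ) (n : ℕ), 1 ≤ n → Prim (U P Q) (2 * n) ⊆ Prim (V P Q) n

/-- **Packet RED** (reduction of the field data): from a + b √-d of norm one to coprime (T, M).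
PROOF. Write a = x/c, b = y/c with integers x, y, c > 0. η + η⁻¹ = 2a (η⁻¹ = conj η = a - b√d i, as a^2 + d b^2 = 1), so with
T₁ = 2x, M₁ = c: M₁ η^2 - T₁ η + M₁ = 0, 4 M₁^2 - T₁^2 = 4 c^2 (1 - a^2) = 4 c^2 d b^2 = d (2y)^2. Let g = gcd(T₁, M₁) > 0, T = T₁/g,
M = M₁/g > 0 coprime; g^2 ∣ d (2y)^2 and d squarefree give g ∣ 2y (compare p-adic valuations:
2 v(g) ≤ 1 + 2 v(2y); or Squarefree lemmas), m = 2y/g. m ≠ 0: else b = 0, a = ± 1, η = ± 1, η^2 = 1 contradiction. T^2 < 4 M^2 since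
d m^2 > 0 (d ≠ 0 squarefree). M ≠ 1: if M = 1 then T ∈ {0, 1, -1} and η^4 = 1, η^6 = 1 or η^3 = 1, contradiction. -/
def G_RED : Prop := ∀ (d : ℕ) (a b : ℚ) (η : ℂ), Squarefree d → a ^ 2 + d * b ^ 2 = 1 →
  η = (a : ℂ) + (b : ℂ) * ((Real.sqrt d : ℝ) : ℂ) * Complex.I → (∀ n : ℕ, 0 < n → η ^ n ≠ 1) →
  ∃ T M m : ℤ, Ctx T M η ∧ m ≠ 0 ∧ 4 * M ^ 2 - T ^ 2 = (d : ℤ) * m ^ 2

end Pool.Agent.Helper59.LUC
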