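import Pool.Agent.Helper59.LUC.Goals

set_option autoImplicit false

namespace Pool.Agent.Helper59.LUC

open Polynomial

/-!
# Project LUC2 (MP_387004_nt): the complete list of the algebraic splittings

Final theorem (replaces the two hand-ins of LUC): for (P,Q) in S with alpha / beta = ± eta^k, eta = a + b sqrt(-d) of
norm one, d ∣ k, and d ≡ 3 mod 4, or 2 d ∣ k, or t ∣ k, where t is the squarefree part of 2 + 2a: all but finitely many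
terms have at least two primitive prime factors.

Everything of LUC (Helper59/LUC/All.lean and its imports) is proved and may be used: the packets below say what they need as
hypotheses G_X of Goals.lean. Each packet is a def G_X2 : Prop. A packet file proves theorem PkX2.thm : G_X2 (or the
implication given in the packet text) in the namespace Pool.Agent.Helper59.LUC, in the file
Pool/Agent/HelperNN/LUC/X2.lean, importing Pool.Agent.Helper59.LUC.Goals2.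

New idea: the splitting of the r-th cyclotomic value at eta through a square root xi of eta. The numbers w with w^2 a
primitive r-th root of unity are 2 φ(r) numbers ± w; if the square root of an integer F is an odd function h(w) of w
(with rational coefficients), they fall into two halves O = {h(w) = sqrt F} and -O; if moreover
F M (T + 2M) or F M (T - 2M) is a square, the two products over O and -O of sqrt(M) |xi - w|^2 are integers.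
-/

/-- The pairs `F, r` for which the square root of `F` is an odd function of the square roots of the primitive `r`-th roots
of unity. -/
def TwC (F : ℤ) (r : ℕ) : Prop :=
  F ∣ (r : ℤ) ∧ ((r % 2 = 1 ∧ F % 4 = 1) ∨ (r % 4 = 2 ∧ F % 4 = 3) ∨ (r % 8 = 4 ∧ F % 2 = 0))

/-- The polynomial `h` gives a square root of `F` as an odd function of the square roots of the primitive `r`-th roots of
unity. -/
def OddRoot (F : ℤ) (r : ℕ) (h : ℚ[X]) : Prop :=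
  ∀ w : ℂ, IsPrimitiveRoot (w ^ 2) r → (aeval w h) ^ 2 = (F : ℂ) ∧ aeval (-w) h = -aeval w h

/-- `F M (T + 2M)` or `F M (T - 2M)` is a square. -/
def SqC (T M F : ℤ) : Prop :=
  ∃ c : ℤ, c ≠ 0 ∧ (F * (M * (T + 2 * M)) = c ^ 2 ∨ F * (M * (T - 2 * M)) = c ^ 2)

/-- **Packet GS2** (Gauss sums).
PROOF. For an odd prime p ∣ r let g_p(X) = Σ_{a < p} (a/p) X^{2 a r / p} ∈ ℚ[X]. If w^2 is a primitive r-th root of unity then
w^{2 r / p} = (w^2)^{r/p} is a primitive p-th root of unity, so g_p(w)^2 = p* := (-1)^{(p-1)/2} p (quadratic Gauss sum, see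
Pool/Agent/Helper58/LUC/GS.lean where this is done), and g_p(-w) = g_p(w) because the exponents are even. Let F' be the odd
part of F (F squarefree, so F = ± F' or ± 2 F'), G(X) = ∏_{p ∣ F'} g_p(X); every p ∣ F' divides r, and
G(w)^2 = ∏ p* is the number = ± F' which is ≡ 1 mod 4.
(a) r odd, F ≡ 1 mod 4: F = ∏ p*. h = X^r G: w^{2r} = 1, so h(w)^2 = F; h is odd at w since r is odd.
(b) r ≡ 2 mod 4, F ≡ 3 mod 4: F = - ∏ p* (both are ± F', and F ≢ ∏ p* mod 4). w^r = (w^2)^{r/2} = -1 (w^2 is a primitive r-th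
root), and e = r/2 is odd, h = X^e G: h(w)^2 = w^r G(w)^2 = F.
(c) r ≡ 4 mod 8, F = 2 F1, F1 odd, F1 = ± ∏ p*. e = r/4 is odd; i := (w^2)^{e} is a primitive 4th root of unity, i^2 = -1,
v = w^e satisfies v^2 = i, v^{-1} = w^{2r - e} (w^{2r} = 1), (v + v⁻¹)^2 = i + 2 + i⁻¹ = 2. h = (X^e + X^{2r-e}) G if F1 = ∏ p*,
h = X^{2e} (X^e + X^{2r - e}) G if F1 = - ∏ p*. The exponents e and 2r - e are odd, 2e is even. -/
def G_GS2 : Prop := ∀ (F : ℤ) (r : ℕ), Squarefree F → 1 ≤ r → TwC F r → ∃ h : ℚ[X], OddRoot F r h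

/-- The set O of packet SP2. -/
structure Tw (r : ℕ) (O : Finset ℂ) : Prop where
  prim : ∀ w ∈ O, IsPrimitiveRoot (w ^ 2) r
  half : ∀ w : ℂ, IsPrimitiveRoot (w ^ 2) r → (w ∈ O ↔ -w ∉ O)
  orb : ∀ a : ℕ, a.Coprime (2 * r) → (∀ w ∈ O, w ^ a ∈ O) ∨ (∀ w ∈ O, -(w ^ a) ∈ O)

/-- **Packet OR2** (the half).
PROOF. R = {w : w^2 is a primitive r-th root of unity} is finite. Let s ∈ ℂ, s^2 = F, s ≠ 0, O = {w ∈ R : h(w) = s}.
half: h(w) = ± s for w ∈ R, h(-w) = -h(w). orb: let a be coprime to 2r (so a is odd). Claim: there is ε = ± 1 with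
h(w^a) = ε h(w) for all w ∈ R. All w ∈ R are powers of ζ = e^{2πi/(2r)}, and there is an automorphism σ of ℚ(ζ) (or of ℂ) with
σ ζ = ζ^a, so σ w = w^a and h(w^a) = σ(h(w)), and σ(s) = ε s. Without automorphisms: if r is even all w ∈ R are primitive 2r-th
roots of unity (orders: w^2 has order r even), cyclotomic 2r is irreducible over ℚ, and h(X^a)^2 - h(X)^2 vanishes at one,
hence at all of them, so cyclotomic 2r divides (h(X^a) - h(X)) (h(X^a) + h(X)), hence one of the factors. If r is odd, R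
consists of the primitive r-th roots of unity w and of their negatives; use cyclotomic r for the former and
h((-w)^a) = h(-(w^a)) = -h(w^a), h(-w) = -h(w) for the latter. (See Pool/Agent/Helper75/LUC/SP.lean for the same argument.)
Then for w ∈ O: h(w^a) = ε s, w^a ∈ R, so w^a ∈ O if ε = 1, and h(-(w^a)) = s, -(w^a) ∈ O, if ε = -1. -/
def G_OR2 : Prop := ∀ (F : ℤ) (r : ℕ) (h : ℚ[X]), F ≠ 0 → 3 ≤ r → OddRoot F r h → ∀ s : ℂ, s ^ 2 = (F : ℂ) →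
  ∃ O : Finset ℂ, Tw r O ∧ ∀ w : ℂ, w ∈ O ↔ (IsPrimitiveRoot (w ^ 2) r ∧ aeval w h = s)

/-- **Packet RT2** (rationality of a polynomial).
PROOF. g(w) = w h(w) / F for w with w^2 a primitive r-th root of unity; then g(-w) = g(w), and for w ∈ O, g(w) = w s / s^2 = w / s.
Let G(Y) = ∏_{w ∈ O} (Y - w / s) ∈ ℂ[Y]. As O and -O together are all these w and g(-w) = g(w), G^2 = ∏_{w ∈ R} (Y - g(w)),
R = {w : w^2 primitive r-th root}. (1) ∏_{w∈R}(Y - g(w)) has rational coefficients: R is the set of the (simple) roots of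
cyclotomic r (X^2), a monic rational polynomial which is separable; symmetric functions of g(w), w ∈ R. For instance: in the
Galois extension L = ℚ(ζ), ζ = e^{2πi/(2r)}, R ⊂ L, every σ ∈ Gal(L/ℚ) permutes R and σ(g(w)) = g(σ w) as g has rational
coefficients, so even G is fixed by all σ (σ permutes the set {g(w) : w ∈ R} = {g(w) : w ∈ O}, and g is injective on O), so
its coefficients are in ℚ (this gives the claim for G at once). (2) or: a monic polynomial G ∈ ℂ[Y] with G^2 ∈ ℚ[Y] is in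
ℚ[Y] (the coefficients of G are computed recursively from the top from those of G^2). -/
def G_RT2 : Prop := ∀ (F : ℤ) (r : ℕ) (h : ℚ[X]), F ≠ 0 → 3 ≤ r → OddRoot F r h → ∀ s : ℂ, s ^ 2 = (F : ℂ) →
  ∀ O : Finset ℂ, (∀ w : ℂ, w ∈ O ↔ (IsPrimitiveRoot (w ^ 2) r ∧ aeval w h = s)) →
  ∃ G : ℚ[X], G.map (algebraMap ℚ ℂ) = ∏ w ∈ O, (X - C (w / s))

/-- **Packet RN2** (theorem PkRN2.thm : G_RN2): the integers.
PROOF. Let κ = ξ / s. (1) conj ξ = ξ⁻¹ (‖ξ‖ = 1 since ξ^2 = η, ‖η‖ = 1, Ctx.norm_eq), (ξ + ξ⁻¹)^2 = η + η⁻¹ + 2 = (T + 2M)/M and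
(ξ - ξ⁻¹)^2 = (T - 2M)/M (Ctx.add_inv). If F M (T+2M) = c^2 then F > 0 (T + 2M > 0 by Ctx.hlt), so s is real
(s^2 = F > 0), conj κ = ξ⁻¹/s, κ · conj κ = 1/F, (κ + conj κ)^2 = (T+2M)/(M F) = (c/(F M))^2, so κ + conj κ = ± c/(F M) is rational.
If F M (T - 2M) = c^2 then F < 0, s is purely imaginary, conj s = -s, conj κ = -ξ⁻¹/s, κ · conj κ = -1/F,
(κ + conj κ)^2 = ((ξ - ξ⁻¹)/s)^2 = (c/(F M))^2. So in both cases κ^2 = u κ - v with rational u = κ + conj κ, v = κ conj κ.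
(2) G(κ) · conj G(κ) = G(κ) G(conj κ) is rational for G ∈ ℚ[X]: G(κ) = p + q κ with rational p, q (G mod X^2 - u X + v, or
induction on powers), G(conj κ) = p + q conj κ, product p^2 + p q u + q^2 v. (3) ∏_{w∈O} ‖ξ - w‖^2 = |s|^{2 card O} ‖G(κ)‖^2 =
|F|^{card O} ‖G(κ)‖^2 is rational (ξ - w = s (κ - w/s)), and √M^{card O} is rational as card O is even. So
A = ∏_{w ∈ O} √M ‖ξ - w‖^2 is rational. (4) A is an algebraic integer: √M ‖ξ - w‖^2 = √M (ξ - w)(ξ⁻¹ - w⁻¹) =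
2 √M - w⁻¹ (√M ξ) - w (√M ξ⁻¹) (‖w‖ = 1), and √M, w, w⁻¹ are algebraic integers, (√M ξ)^2 = M η and (√M ξ⁻¹)^2 = M η⁻¹ are roots
of x^2 - T x + M^2. A rational algebraic integer is an integer, A ≥ 0, so a natural number. -/
def G_RN2 : Prop := ∀ (T M : ℤ) (η ξ : ℂ), Ctx T M η → ξ ^ 2 = η → ∀ (F : ℤ), SqC T M F →
  ∀ s : ℂ, s ^ 2 = (F : ℂ) → ∀ (O : Finset ℂ), Even O.card → (∀ w ∈ O, ∃ n : ℕ, 0 < n ∧ w ^ n = 1) →
  (∃ G : ℚ[X], G.map (algebraMap ℚ ℂ) = ∏ w ∈ O, (X - C (w / s))) →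
  ∃ A : ℕ, (A : ℝ) = ∏ w ∈ O, (Real.sqrt M * ‖ξ - w‖ ^ 2)

/-- **Packet PB2** (Parseval).
PROOF. Let n = 2r, R = {w : w^2 primitive r-th root of unity}; all w ∈ R satisfy w^n = 1. Each primitive r-th root z has exactly
two square roots w, -w, exactly one of them in O (half), so w ↦ w^2 is a bijection from O onto the set of primitive r-th
roots of unity and card O = φ(r). Let f(b) = Σ_{w∈O} w^b; Σ_{b<n} ‖f(b)‖^2 = Σ_{w,w'∈O} Σ_{b<n} (w w'⁻¹)^b = n card O. For a coprime to n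
the map w ↦ w^a is injective on the n-th roots of unity, and by orb it maps O onto O or onto -O, so f(a k) = ± f(k). The
numbers a k mod n (a < n coprime to n) take at least φ(n)/k different values (a k ≡ a' k mod n iff a ≡ a' mod n / gcd(n,k), at
most gcd(n,k) ≤ k such a'), and f(b) depends only on b mod n; so (φ(n)/k) ‖f(k)‖^2 ≤ n card O = n φ(r), and
φ(n) = φ(2r) ≥ φ(r). Hence ‖f(k)‖^2 ≤ 2 k r. (Compare Pool/Agent/Helper5/LUC/PB.lean.) -/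
def G_PB2 : Prop := ∀ r : ℕ, 3 ≤ r → ∀ O : Finset ℂ, Tw r O →
  O.card = r.totient ∧ ∀ k : ℕ, 1 ≤ k → ‖∑ w ∈ O, w ^ k‖ ^ 2 ≤ 2 * (k : ℝ) * r

/-- **Packet UB2** (upper bound for a sum of logarithms).
PROOF. Let 0 < ρ < 1 with 2 log (2/(1+ρ)) ≤ ε. For ‖u‖ = 1, c = Re u: ‖1 - u‖^2 = 2 - 2c, ‖1 - ρ u‖^2 = 1 + ρ^2 - 2ρc > 0 and
(1+ρ)^2 (2 - 2c) ≤ 4 (1 + ρ^2 - 2ρc) (the difference is 4 + 4ρ^2 - 8ρc - 2(1+ρ)^2 + 2c(1+ρ)^2 = 2 (1-ρ)^2 (1 + c) ≥ 0).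
So log ‖1 - u‖^2 ≤ 2 log(2/(1+ρ)) + log ‖1 - ρu‖^2 for u ≠ 1. And log ‖1 - ρu‖^2 = 2 Re log(1 - ρu) = -2 Re Σ_{k≥1} (ρu)^k/k
(Complex.hasSum_taylorSeries_neg_log). Apply this to u = z / ξ, z ∈ O (‖ξ - z‖ = ‖1 - z/ξ‖) and sum over z:
Σ_{z∈O} log ‖ξ - z‖^2 ≤ ε card O - 2 Re Σ_{k≥1} (ρ^k/k) ξ^{-k} Σ_{z∈O} z^k ≤ ε card O + 2 Σ_{k≥1} (ρ^k/k) √k R
≤ ε card O + 2 R ρ/(1-ρ). C = 2ρ/(1-ρ). -/
def G_UB2 : Prop := ∀ ε : ℝ, 0 < ε → ∃ C : ℝ, 0 ≤ C ∧ ∀ (ξ : ℂ), ‖ξ‖ = 1 → ∀ (O : Finset ℂ) (R : ℝ), 0 ≤ R →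
  (∀ z ∈ O, ‖z‖ = 1 ∧ z ≠ ξ) → (∀ k : ℕ, 1 ≤ k → ‖∑ z ∈ O, z ^ k‖ ^ 2 ≤ k * R ^ 2) →
  ∑ z ∈ O, Real.log (‖ξ - z‖ ^ 2) ≤ ε * O.card + C * R

/-- **Packet RK2B** (the two factors have no common prime; theorem PkRK2B.thm : G_RK2B).
PROOF. As in packet RK5 (Pool/Agent/Helper35/LUC/RK5.lean). Let 𝔓 be a maximal ideal of the ring of algebraic integers
containing p. μ = √M ξ, μ' = √M ξ⁻¹ are algebraic integers, μ μ' = M ∉ 𝔓. √M ‖ξ - w‖^2 = 2√M - w⁻¹ μ - w μ' and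
w μ (2√M - w⁻¹ μ - w μ') = -(μ - w √M)^2. If p divides NA then μ ≡ w₁ √M mod 𝔓 for some w₁ ∈ O; if p divides NB then
(‖ξ + w‖ = ‖ξ - (-w)‖) μ ≡ -w₂ √M mod 𝔓 for some w₂ ∈ O. So (w₁ + w₂) √M ∈ 𝔓, w₁ + w₂ ∈ 𝔓 (√M · √M = M ∉ 𝔓). w₁ ≠ -w₂ since
-w₂ ∉ O; w = -w₂/w₁ ≠ 1 satisfies w^{2r} = 1, and 1 - w ∈ 𝔓 divides 2r: 2r ∈ 𝔓, p ∣ 2r, contradiction. -/
def G_RK2B : Prop := ∀ (T M : ℤ) (η ξ : ℂ), Ctx T M η → ξ ^ 2 = η →
  ∀ (r p : ℕ), 1 ≤ r → p.Prime → ¬ p ∣ 2 * r → ¬ (p : ℤ) ∣ M →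
  ∀ (O : Finset ℂ), (∀ w ∈ O, IsPrimitiveRoot (w ^ 2) r) → (∀ w ∈ O, -w ∉ O) →
  ∀ NA NB : ℕ, (NA : ℝ) = ∏ w ∈ O, (Real.sqrt M * ‖ξ - w‖ ^ 2) →
    (NB : ℝ) = ∏ w ∈ O, (Real.sqrt M * ‖ξ + w‖ ^ 2) → ¬ (p ∣ NA ∧ p ∣ NB)

/-- Two primes of exact rank `r`. -/
def TwoPr (T M : ℤ) (r : ℕ) : Prop :=
  ∃ p p' : ℕ, p.Prime ∧ p'.Prime ∧ p ≠ p' ∧ ¬ (p : ℤ) ∣ M ∧ ¬ (p' : ℤ) ∣ M ∧
    (∀ n : ℕ, ((p : ℤ) ∣ W T M n ↔ r ∣ n)) ∧ (∀ n : ℕ, ((p' : ℤ) ∣ W T M n ↔ r ∣ n))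

/-- **Packet Y2** (theorem PkY2.thm (hgs : G_GS2) (hor : G_OR2) (hrt : G_RT2) (hrn : G_RN2) (hpb : G_PB2) (hub : G_UB2)
(hrk : G_RK2B) (hlb : G_LB) (hvb : G_VB) (h1 : G_RK1) (h2 : G_RK2) (h4 : G_RK4) (hn : G_NT) : G_Y2): two primes of exact rank r.
PROOF. Let ξ^2 = η, s^2 = F. Let r be large, TwC F r. GS2 gives h, OR2 gives O, RT2 gives G, PB2: card O = φ(r), which is even
for r ≥ 3 (Nat.totient_even). RN2 for ξ gives NA = ∏_{w∈O} √M ‖ξ - w‖^2, RN2 for -ξ gives NB = ∏_{w∈O} √M ‖ξ + w‖^2 (‖-ξ - w‖ = ‖ξ + w‖).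
NA NB = ∏_{w∈O} M ‖ξ^2 - w^2‖^2 = ∏_{z primitive r-th root} M ‖η - z‖^2 = N r (w ↦ w^2 is a bijection from O onto the primitive r-th
roots: injective since w^2 = w'^2 gives w' = ± w, and -w ∉ O; surjective by half; cyclotomic as product over primitive roots).
By UB2 with ε = (log 2)/16, R = √(2r) (PB2), and for ξ and O, and for -ξ and O:
log NA, log NB ≤ φ(r) (log M / 2 + ε) + C √(2r). (w ≠ ± ξ because η is not a root of unity.) By LB with the same ε,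
log N_r ≥ φ(r) (log M - ε), so log NA = log N_r - log NB ≥ φ(r) (log M/2 - 2ε) - C√(2r) ≥ φ(r) (3/8) log 2 - C √(2r) > 2 log r for
r large (φ(r) ≥ r^{3/4}/C' by NT). The same for NB. By VB each prime p ∣ r has exponent ≤ 2 in N_r, so in NA. If r is odd
then 2 ∤ N_r for large r: otherwise 2 ∤ M (RK4), the exact rank of 2 is r by RK2, but by RK1 it is a fixed number. So if all
primes dividing NA divided 2r they would divide r, NA ∣ r^2, NA ≤ r^2, a contradiction. So there is a prime p ∣ NA with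
p ∤ 2r, and a prime p' ∣ NB with p' ∤ 2r. They do not divide M (RK4) and have exact rank r (RK2); p ≠ p' by RK2B.
(Compare Pool/Agent/Helper73/LUC/Y.lean.) -/
def G_Y2 : Prop := ∀ (T M : ℤ) (η : ℂ), Ctx T M η → ∀ N : ℕ → ℕ, NN T M η N →
  ∀ F : ℤ, Squarefree F → SqC T M F → ∃ r0 : ℕ, ∀ r : ℕ, r0 ≤ r → TwC F r → TwoPr T M r

/-- **Packet R2B** (theorem PkR2B.thm (hx : G_X) : G_R2B): two primes of prescribed rank for η^k, with an abstract condition.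
PROOF. Pool/Agent/Helper31/LUC/R2.lean with `Cd r` instead of the divisibility condition (use PkR2.split, bad_bound,
rank_unique from there). -/
def G_R2B : Prop := ∀ (T M : ℤ) (η : ℂ), Ctx T M η → ∀ N : ℕ → ℕ, NN T M η N →
  ∀ Cd : ℕ → Prop, (∃ r0 : ℕ, ∀ r : ℕ, r0 ≤ r → Cd r → TwoPr T M r) → ∀ (k c : ℕ), 0 < k → 0 < c →
  ∃ n0 : ℕ, ∀ n' : ℕ, n0 ≤ n' → ((∀ q : ℕ, q.Prime → q ∣ k → q ∣ n') → Cd (n' * k)) →
    ∃ p p' : ℕ, p.Prime ∧ p'.Prime ∧ p ≠ p' ∧ ¬ p ∣ c ∧ ¬ p' ∣ c ∧ ¬ (p : ℤ) ∣ M ∧ ¬ (p' : ℤ) ∣ M ∧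
      (∀ n : ℕ, ((p : ℤ) ∣ W T M (k * n) ↔ n' ∣ n)) ∧ (∀ n : ℕ, ((p' : ℤ) ∣ W T M (k * n) ↔ n' ∣ n))

end Pool.Agent.Helper59.LUC
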