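import Pool.Agent.Helper59.LUC.Goals

set_option autoImplicit false

namespace Pool.Agent.Helper59.LUC
namespace PkRK4

lemma V_mod (T M : ℤ) (p : ℤ) (hM : p ∣ M) (n : ℕ) : p ∣ V T (M ^ 2) (n + 1) - T ^ (n + 1) := by
  induction n with
  | zero => simp [V]
  | succ n ih =>
    have e : V T (M ^ 2) (n + 1 + 1) = T * V T (M ^ 2) (n + 1) - M ^ 2 * V T (M ^ 2) n := rfl
    rw [e]
    have h1 : T * V T (M ^ 2) (n + 1) - M ^ 2 * V T (M ^ 2) n - T ^ (n + 1 + 1) =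
        T * (V T (M ^ 2) (n + 1) - T ^ (n + 1)) - M * (M * V T (M ^ 2) n) := by ring
    rw [h1]
    exact dvd_sub (dvd_mul_of_dvd_right ih _) (dvd_mul_of_dvd_left hM _)

theorem thm : G_RK4 := by
  intro T M η h N hN n p hn hp hpM
  have hpi : Prime (p : ℤ) := Nat.prime_iff_prime_int.mp hp
  have hW : ¬ (p : ℤ) ∣ W T M n := by
    intro hd
    obtain ⟨k, rfl⟩ : ∃ k, n = k + 1 := ⟨n - 1, by omega⟩
    have h1 := V_mod T M p hpM k
    have h2 : (p : ℤ) ∣ 2 * M ^ (k + 1) := by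
      rw [pow_succ, ← mul_assoc]
      exact dvd_mul_of_dvd_right hpM _
    have h3 : (p : ℤ) ∣ T ^ (k + 1) := by
      have h4 : T ^ (k + 1) = 2 * M ^ (k + 1) - W T M (k + 1) - (V T (M ^ 2) (k + 1) - T ^ (k + 1)) := by
        unfold W
        ring
      rw [h4]
      exact dvd_sub (dvd_sub h2 hd) h1
    have h5 : (p : ℤ) ∣ T := hpi.dvd_of_dvd_pow h3
    have h6 := h.hTM.isUnit_of_dvd' h5 hpM
    exact hpi.not_unit h6
  refine ⟨hW, ?_⟩
  intro hd
  apply hW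
  rw [← hN.prod n hn]
  have h1 : (N n : ℤ) ∣ ∏ d ∈ n.divisors, (N d : ℤ) :=
    Finset.dvd_prod_of_mem (fun d => (N d : ℤ)) (Nat.mem_divisors_self n (by omega))
  exact dvd_trans (by exact_mod_cast hd) h1

end PkRK4
end Pool.Agent.Helper59.LUC
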